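import Pool.Agent.Y322.IV.Def

set_option autoImplicit false

open Set MeasureTheory Function
open scoped unitInterval ContDiff

namespace Pool.Agent.Y322.IV

/-- IV-CLOSED: the set of loops is closed. -/
def S_CLOSED : Prop :=
  ∀ (E : Type) [NormedAddCommGroup E] [InnerProductSpace ℝ E] [FiniteDimensional ℝ E]
    (T : Type) [TopologicalSpace T] (F : T → E → ℝ) (G : T → E → E) (g : E → ℝ),
    Continuous (fun z : T × E => F z.1 z.2) → Continuous (fun z : T × E => G z.1 z.2) →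
    Continuous g → ∀ (e : E) (n : ℕ) (c M : ℝ), 0 < c → IsClosed (LoopSet F G g e n c M)

/-- IV-BUMP: a countable family of small bumps. -/
def S_BUMP : Prop :=
  ∀ (E : Type) [NormedAddCommGroup E] [InnerProductSpace ℝ E] [FiniteDimensional ℝ E] (ε : ℝ),
    0 < ε → ∃ g : ℕ → E → ℝ, (∀ j, ContDiff ℝ ∞ (g j)) ∧ (∀ j, HasCompactSupport (g j)) ∧
      (∀ j x, 0 ≤ g j x) ∧ (∀ j, Convex ℝ {x | 0 < g j x}) ∧
      (∀ j k : ℕ, k ≤ j → ∀ x, ‖iteratedFDeriv ℝ k (g j) x‖ ≤ ε / 2 ^ j) ∧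
      ∀ (q : E) (S : Set E), S.Finite → q ∉ S → ∃ j, 0 < g j q ∧ ∀ x ∈ S, g j x = 0

/-- IV-PERT: the perturbed function is smooth, depends continuously on the parameter together with
its gradient, and depends affinely on each single parameter. -/
def S_PERT : Prop :=
  ∀ (E : Type) [NormedAddCommGroup E] [InnerProductSpace ℝ E] [FiniteDimensional ℝ E] (ε : ℝ)
    (g : ℕ → E → ℝ), (∀ j, ContDiff ℝ ∞ (g j)) → (∀ j, HasCompactSupport (g j)) →
    (∀ j k : ℕ, k ≤ j → ∀ x, ‖iteratedFDeriv ℝ k (g j) x‖ ≤ ε / 2 ^ j) →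
    ∀ f : E → ℝ, ContDiff ℝ ∞ f →
      (∀ t : ℕ → I, ContDiff ℝ ∞ (pert f g t)) ∧
      Continuous (fun z : (ℕ → I) × E => pert f g z.1 z.2) ∧
      Continuous (fun z : (ℕ → I) × E => gradient (pert f g z.1) z.2) ∧
      ∀ (t : ℕ → I) (j : ℕ) (r r' : I) (x : E),
        pert f g (update t j r) x = pert f g (update t j r') x + ((r : ℝ) - (r' : ℝ)) * g j x

end Pool.Agent.Y322.IV
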