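import Mathlib

/-!
# Small bumps in an open set (after `Pool.Agent.Y288.IV.Bump`)
-/

set_option autoImplicit false

open Set MeasureTheory Function
open scoped unitInterval ContDiff

namespace Pool.Agent.Y322.IV

theorem bumps (E : Type) [NormedAddCommGroup E] [InnerProductSpace ℝ E] [FiniteDimensional ℝ E]
    (W : Set E) (hW : IsOpen W) (N : ℕ) (ε : ℝ) (hε : 0 < ε) :
    ∃ g : ℕ → E → ℝ, (∀ j, ContDiff ℝ ∞ (g j)) ∧ (∀ j, HasCompactSupport (g j)) ∧
      (∀ j, tsupport (g j) ⊆ W) ∧
      (∀ j x, 0 ≤ g j x) ∧ (∀ j, Convex ℝ {x | 0 < g j x}) ∧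
      (∀ j k : ℕ, k ≤ N + j → ∀ x, ‖iteratedFDeriv ℝ k (g j) x‖ ≤ ε / 2 ^ j) ∧
      ∀ q ∈ W, ∀ S : Set E, S.Finite → q ∉ S → ∃ j, 0 < g j q ∧ ∀ x ∈ S, g j x = 0 := by
  classical
  let c : ℕ → E := TopologicalSpace.denseSeq E
  let B : ∀ j : ℕ, ContDiffBump (c j.unpair.1) := fun j =>
    { rIn := 1 / (2 * ((j.unpair.2 : ℝ) + 1))
      rOut := 1 / ((j.unpair.2 : ℝ) + 1)
      rIn_pos := by positivity
      rIn_lt_rOut := by
        apply one_div_lt_one_div_of_lt
        · positivity
        · have : (0 : ℝ) ≤ (j.unpair.2 : ℝ) := by positivity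
          linarith }
  have hsupp : ∀ j, Function.support (B j) =
      Metric.ball (c j.unpair.1) (1 / ((j.unpair.2 : ℝ) + 1)) := fun j => (B j).support_eq
  have hts : ∀ j, tsupport (B j) =
      Metric.closedBall (c j.unpair.1) (1 / ((j.unpair.2 : ℝ) + 1)) := fun j => (B j).tsupport_eq
  have hbd : ∀ j k : ℕ, ∃ A : ℝ, ∀ x, ‖iteratedFDeriv ℝ k (B j) x‖ ≤ A := by
    intro j k
    have h1 : ContDiff ℝ ∞ (B j) := (B j).contDiff
    have h2 : Continuous (iteratedFDeriv ℝ k (B j)) := h1.continuous_iteratedFDeriv (by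
      exact_mod_cast le_top)
    exact h2.bounded_above_of_compact_support ((B j).hasCompactSupport.iteratedFDeriv k)
  choose A hA using hbd
  let D : ℕ → ℝ := fun j => 1 + ∑ k ∈ Finset.range (N + j + 1), |A j k|
  have hD : ∀ j, 0 < D j := fun j => by
    have : 0 ≤ ∑ k ∈ Finset.range (N + j + 1), |A j k| := Finset.sum_nonneg fun _ _ => abs_nonneg _
    show 0 < 1 + ∑ k ∈ Finset.range (N + j + 1), |A j k|
    linarith
  -- the coefficient
  let a : ℕ → ℝ := fun j => if Metric.closedBall (c j.unpair.1) (1 / ((j.unpair.2 : ℝ) + 1)) ⊆ W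
    then ε / (2 ^ j * D j) else 0
  have ha0 : ∀ j, 0 ≤ a j := fun j => by
    have := hD j
    simp only [a]
    split_ifs <;> positivity
  have ha1 : ∀ j, a j ≤ ε / (2 ^ j * D j) := fun j => by
    have := hD j
    simp only [a]
    split_ifs
    · exact le_rfl
    · positivity
  have haW : ∀ j, a j ≠ 0 → Metric.closedBall (c j.unpair.1) (1 / ((j.unpair.2 : ℝ) + 1)) ⊆ W := by
    intro j hj
    by_contra hcon
    exact hj (if_neg hcon)
  have hapos : ∀ j, Metric.closedBall (c j.unpair.1) (1 / ((j.unpair.2 : ℝ) + 1)) ⊆ W →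
      0 < a j := by
    intro j hj
    have h1 : a j = ε / (2 ^ j * D j) := if_pos hj
    have := hD j
    rw [h1]
    positivity
  let g : ℕ → E → ℝ := fun j x => a j • B j x
  have hpos : ∀ j x, 0 < g j x ↔
      0 < a j ∧ x ∈ Metric.ball (c j.unpair.1) (1 / ((j.unpair.2 : ℝ) + 1)) := by
    intro j x
    rw [← hsupp j]
    show 0 < a j • B j x ↔ 0 < a j ∧ B j x ≠ 0
    rw [smul_eq_mul]
    constructor
    · intro h
      refine ⟨lt_of_le_of_ne (ha0 j) fun h0 => ?_, fun h0 => ?_⟩
      · rw [← h0, zero_mul] at h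
        exact lt_irrefl _ h
      · rw [h0, mul_zero] at h
        exact lt_irrefl _ h
    · rintro ⟨h1, h⟩
      exact mul_pos h1 (lt_of_le_of_ne (B j).nonneg (Ne.symm h))
  refine ⟨g, fun j => ?_, fun j => ?_, fun j => ?_, fun j x => ?_, fun j => ?_,
    fun j k hk x => ?_, ?_⟩
  · have h1 : ContDiff ℝ ∞ (B j) := (B j).contDiff
    exact contDiff_const.mul h1
  · exact (B j).hasCompactSupport.smul_left (f := fun _ => a j)
  · by_cases h0 : a j = 0
    · have : g j = fun _ => 0 := by
        funext x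
        show a j • B j x = 0
        rw [h0, zero_smul]
      rw [this, tsupport, Function.support_fun_zero, closure_empty]
      exact empty_subset _
    · refine Subset.trans ?_ (haW j h0)
      rw [← hts j]
      refine closure_mono ?_
      intro x hx hBx
      apply hx
      show a j • B j x = 0
      rw [hBx, smul_zero]
  · exact mul_nonneg (ha0 j) (B j).nonneg
  · by_cases h0 : 0 < a j
    · have : {x | 0 < g j x} = Metric.ball (c j.unpair.1) (1 / ((j.unpair.2 : ℝ) + 1)) := by
        ext x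
        rw [mem_ofPred_eq, hpos]
        exact ⟨fun h => h.2, fun h => ⟨h0, h⟩⟩
      rw [this]
      exact convex_ball _ _
    · have : {x | 0 < g j x} = ∅ := by
        ext x
        rw [mem_ofPred_eq, hpos]
        exact ⟨fun h => h0 h.1, fun h => absurd h (notMem_empty _)⟩
      rw [this]
      exact convex_empty
  · have h1 : ContDiff ℝ k (B j) := (B j).contDiff
    have h2 : iteratedFDeriv ℝ k (g j) x = a j • iteratedFDeriv ℝ k (B j) x := by
      have h5 : g j = a j • (B j : E → ℝ) := rfl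
      rw [h5]
      exact iteratedFDeriv_const_smul_apply (a := a j) (h1.contDiffAt)
    rw [h2, norm_smul, Real.norm_eq_abs, abs_of_nonneg (ha0 j)]
    have h3 : ‖iteratedFDeriv ℝ k (B j) x‖ ≤ D j := by
      have h4 : |A j k| ≤ ∑ k ∈ Finset.range (N + j + 1), |A j k| :=
        Finset.single_le_sum (f := fun k => |A j k|) (fun _ _ => abs_nonneg _)
          (Finset.mem_range.2 (by omega))
      have h5 := hA j k x
      have h6 := le_abs_self (A j k)
      show _ ≤ 1 + ∑ k ∈ Finset.range (N + j + 1), |A j k|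
      linarith
    have h4 := hD j
    calc a j * ‖iteratedFDeriv ℝ k (B j) x‖ ≤ ε / (2 ^ j * D j) * D j :=
          mul_le_mul (ha1 j) h3 (norm_nonneg _) (by positivity)
      _ = ε / 2 ^ j := by
          field_simp
  · intro q hqW S hS hq
    obtain ⟨δ, hδ, hball⟩ := Metric.isOpen_iff.1 (hW.inter hS.isClosed.isOpen_compl) q ⟨hqW, hq⟩
    obtain ⟨m, hm⟩ := exists_nat_one_div_lt (show (0 : ℝ) < δ / 2 by positivity)
    obtain ⟨i, hi⟩ := (TopologicalSpace.denseRange_denseSeq E).exists_dist_lt q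
      (show (0 : ℝ) < 1 / ((m : ℝ) + 1) by positivity)
    have hsub : Metric.closedBall (c i) (1 / ((m : ℝ) + 1)) ⊆ Metric.ball q δ := by
      intro x hx
      rw [Metric.mem_closedBall] at hx
      rw [Metric.mem_ball]
      have h3 := dist_triangle x (c i) q
      have h4 : dist (c i) q < 1 / ((m : ℝ) + 1) := by
        rw [dist_comm]; exact hi
      linarith
    have hpos' : 0 < a (Nat.pair i m) := by
      apply hapos
      rw [Nat.unpair_pair]
      exact fun x hx => (hball (hsub hx)).1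
    refine ⟨Nat.pair i m, ?_, fun x hx => ?_⟩
    · rw [hpos]
      refine ⟨hpos', ?_⟩
      rw [Nat.unpair_pair]
      exact hi
    · have h1 : ¬ (0 < g (Nat.pair i m) x) := by
        rw [hpos, Nat.unpair_pair]
        rintro ⟨-, h⟩
        exact (hball (hsub (Metric.ball_subset_closedBall h))).2 hx
      have h2 : 0 ≤ g (Nat.pair i m) x := mul_nonneg (ha0 _) (B _).nonneg
      exact le_antisymm (not_lt.1 h1) h2

end Pool.Agent.Y322.IV
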