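import Pool.Agent.Y322.IV.Perp

/-!
# The returning trajectories are covered by the loops
-/

set_option autoImplicit false

open Set MeasureTheory Function Topology Filter
open scoped NNReal ENNReal

namespace Pool.Agent.Y322.IV

variable {E : Type} [NormedAddCommGroup E] [InnerProductSpace ℝ E] [FiniteDimensional ℝ E]

/-- The lines which carry a closed loop for the table `h`. -/
def Lines (h g : E → ℝ) (e : E) (n : ℕ) (c M : ℝ) : Set ((ℝ ∙ e)ᗮ × (ℝ ∙ e)ᗮ) :=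
  {z | ∃ (a : ℝ) (p u : ℕ → E) (τ : ℕ → ℝ),
    LoopAt h (gradient h) g e (z.1 : E) (z.2 : E) n c M a p u τ}

/-- The phase points on the lines of `L`. -/
def OnLines (h : E → ℝ) (e : E) (L : Set ((ℝ ∙ e)ᗮ × (ℝ ∙ e)ᗮ)) : Set (E × E) :=
  Graph h ((fun z : (ℝ ∙ e)ᗮ × (ℝ ∙ e)ᗮ => ((z.1 : E), ‖e + (z.2 : E)‖⁻¹ • (e + (z.2 : E)))) ''
    (L ∩ univ))

omit [FiniteDimensional ℝ E] in
theorem add_ne_zero_of_mem {e : E} (he : ‖e‖ = 1) (w : (ℝ ∙ e)ᗮ) : e + (w : E) ≠ 0 := by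
  intro h0
  have h1 : inner ℝ e (w : E) = 0 :=
    (Submodule.mem_orthogonal_singleton_iff_inner_right).1 w.2
  have h2 : inner ℝ e (e + (w : E)) = (1 : ℝ) := by
    rw [inner_add_right, h1, real_inner_self_eq_norm_sq, he]
    norm_num
  rw [h0, inner_zero_right] at h2
  exact zero_ne_one h2

section meas
variable [MeasurableSpace E] [BorelSpace E]

theorem null_OnLines {h : E → ℝ} (hh : ContDiff ℝ 2 h) {s : ℝ} (hs : 0 ≤ s) {e : E}
    (he : ‖e‖ = 1) (L : Set ((ℝ ∙ e)ᗮ × (ℝ ∙ e)ᗮ)) (hL : μH[s] L = 0) :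
    μH[s] (OnLines h e L) = 0 := by
  refine null_Graph hh hs _ (null_c1 hs _ univ (fun z _ => ?_) L hL)
  have h1 : ContDiff ℝ 1 (fun z : (ℝ ∙ e)ᗮ × (ℝ ∙ e)ᗮ => (z.1 : E)) :=
    (ℝ ∙ e)ᗮ.subtypeL.contDiff.comp contDiff_fst
  have h2 : ContDiff ℝ 1 (fun z : (ℝ ∙ e)ᗮ × (ℝ ∙ e)ᗮ => e + (z.2 : E)) :=
    contDiff_const.add ((ℝ ∙ e)ᗮ.subtypeL.contDiff.comp contDiff_snd)
  have hne := add_ne_zero_of_mem he z.2
  exact h1.contDiffAt.prodMk
    (((h2.contDiffAt.norm ℝ hne).inv (norm_ne_zero_iff.2 hne)).smul h2.contDiffAt)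

end meas

theorem ev_small {x : ℝ} (hx : 0 < x) : ∀ᶠ m : ℕ in atTop, 1 / ((m : ℝ) + 1) ≤ x := by
  have := (tendsto_one_div_add_atTop_nhds_zero_nat (𝕜 := ℝ)).eventually (Iio_mem_nhds hx)
  exact this.mono fun m hm => le_of_lt hm

theorem ev_large (x : ℝ) : ∀ᶠ m : ℕ in atTop, x ≤ (m : ℝ) + 1 := by
  have := (tendsto_natCast_atTop_atTop (R := ℝ)).eventually (eventually_ge_atTop x)
  exact this.mono fun m hm => by linarith

/-- A returning trajectory is a loop. -/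
theorem loop_of_traj {h g : E → ℝ} {n : ℕ} {p u : ℕ → E} (H : Traj h n p u)
    (hret : p n = p 0) (hneg : u (n - 1) ≠ -u 0) (hg : 0 < g (p 0))
    (hg0 : ∀ k, 0 < k → k < n → g (p k) = 0) {e : E} (he : ‖e‖ = 1)
    (hue : 0 < inner ℝ e (u 0)) :
    ∃ m : ℕ, (p 0, u 0) ∈ OnLines h e (Lines h g e n (1 / ((m : ℝ) + 1)) ((m : ℝ) + 1)) := by
  classical
  set α : ℝ := inner ℝ e (u 0) with hα
  set w : E := α⁻¹ • u 0 - e with hw
  have hew : e + w = α⁻¹ • u 0 := by rw [hw]; abel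
  have hwK : w ∈ (ℝ ∙ e)ᗮ := by
    rw [Submodule.mem_orthogonal_singleton_iff_inner_right, hw, inner_sub_right,
      inner_smul_right, real_inner_self_eq_norm_sq, he, ← hα]
    field_simp
    ring
  set a : ℝ := inner ℝ e (p 0) with ha
  set y : E := p 0 - a • (e + w) with hy
  have hyK : y ∈ (ℝ ∙ e)ᗮ := by
    rw [Submodule.mem_orthogonal_singleton_iff_inner_right, hy, inner_sub_right,
      inner_smul_right, inner_add_right, real_inner_self_eq_norm_sq, he,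
      (Submodule.mem_orthogonal_singleton_iff_inner_right).1 hwK, ← ha]
    ring
  have hu0 : ‖u 0‖ = 1 := (H.1 0 (Nat.zero_le _)).2.1
  have hnorm : ‖e + w‖ = α⁻¹ := by
    rw [hew, norm_smul, hu0, mul_one, norm_inv, Real.norm_of_nonneg hue.le]
  have hch : ∀ k : ℕ, ∃ t : ℝ, k < n → 0 < t ∧ p (k + 1) = p k + t • u k ∧
      ∀ s ∈ Ioo (0 : ℝ) t, h (p k + s • u k) < 0 := by
    intro k
    by_cases hk : k < n
    · obtain ⟨t, ht⟩ := (H.2 k hk).1
      exact ⟨t, fun _ => ht⟩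
    · exact ⟨0, fun h0 => absurd h0 hk⟩
  choose τ hτ using hch
  have hnn : 0 < ‖u (n - 1) + u 0‖ := by
    rw [norm_pos_iff]
    intro h0
    exact hneg (eq_neg_of_add_eq_zero_left h0)
  have hev : ∀ᶠ m : ℕ in atTop, ‖y‖ ≤ (m : ℝ) + 1 ∧ ‖w‖ ≤ (m : ℝ) + 1 ∧ |a| ≤ (m : ℝ) + 1 ∧
      (∀ k ∈ Iic n, 1 / ((m : ℝ) + 1) ≤ -inner ℝ (u k) (gradient h (p k))) ∧
      (∀ k ∈ Iio n, 1 / ((m : ℝ) + 1) ≤ τ k ∧ τ k ≤ (m : ℝ) + 1) ∧
      1 / ((m : ℝ) + 1) ≤ g (p 0) ∧ 1 / ((m : ℝ) + 1) ≤ ‖u (n - 1) + u 0‖ := by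
    refine (ev_large _).and ((ev_large _).and ((ev_large _).and (Eventually.and ?_
      (Eventually.and ?_ ((ev_small hg).and (ev_small hnn))))))
    · refine (Filter.eventually_all_finite (Set.finite_Iic n)).2 fun k hk => ev_small ?_
      have := (H.1 k hk).2.2
      linarith
    · refine (Filter.eventually_all_finite (Set.finite_Iio n)).2 fun k hk => ?_
      exact (ev_small (hτ k hk).1).and (ev_large _)
  obtain ⟨m, h1, h2, h3, h4, h5, h6, h7⟩ := hev.exists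
  have hstart : p 0 = y + a • (e + w) := by rw [hy]; abel
  have hu0' : u 0 = ‖e + w‖⁻¹ • (e + w) := by
    rw [hnorm, hew, smul_smul, inv_inv, mul_inv_cancel₀ hue.ne', one_smul]
  refine ⟨m, y, ‖e + w‖⁻¹ • (e + w), a * ‖e + w‖,
    ⟨(⟨y, hyK⟩, ⟨w, hwK⟩), ⟨⟨a, p, u, τ, ?_⟩, mem_univ _⟩, rfl⟩, ?_, ?_, ?_⟩
  · refine ⟨h1, h2, h3, hstart, ?_, fun k hk => (H.1 k hk).1, fun k hk => (H.1 k hk).2.1,
      fun k hk => by linarith [h4 k hk], fun k hk => (h5 k hk).1, fun k hk => (h5 k hk).2,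
      fun k hk => (hτ k hk).2.1, ?_, ?_, hret, h6, hg0, h7⟩
    · rw [hnorm, hew]
    · intro k hk s hs
      rcases eq_or_lt_of_le hs.1 with h0 | h0
      · rw [← h0, zero_smul, add_zero, (H.1 k hk.le).1]
      · rcases eq_or_lt_of_le hs.2 with h8 | h8
        · rw [h8, ← (hτ k hk).2.1, (H.1 (k + 1) hk).1]
        · exact ((hτ k hk).2.2 s ⟨h0, h8⟩).le
    · intro k hk
      have hgk := H.grad_ne (k := k + 1) hk
      have hgn : ‖gradient h (p (k + 1))‖ ^ 2 ≠ 0 := by positivity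
      rw [(H.2 k hk).2, smul_sub, smul_smul]
      congr 2
      field_simp
  all_goals
    have hnz : ‖e + w‖ ≠ 0 := by rw [hnorm]; exact (inv_pos.2 hue).ne'
    have hpt : y + (a * ‖e + w‖) • ‖e + w‖⁻¹ • (e + w) = p 0 := by
      rw [smul_smul, mul_assoc, mul_inv_cancel₀ hnz, mul_one, ← hstart]
  · rw [hpt]; exact (H.1 0 (Nat.zero_le _)).1
  · rw [hpt, ← hu0']; exact (H.1 0 (Nat.zero_le _)).2.2.ne
  · rw [hpt, ← hu0']

/-- The phase points whose trajectory meets some boundary point of `W` twice. -/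
def TwiceIn (W : Set E) (h : E → ℝ) : Set (E × E) :=
  {x | ∃ (n : ℕ) (p u : ℕ → E), Traj h n p u ∧ p 0 = x.1 ∧ u 0 = x.2 ∧
    ∃ k l : ℕ, k < l ∧ l ≤ n ∧ p k = p l ∧ p k ∈ W}

/-- The periodic phase points whose trajectory has a bounce point in `W`. -/
def PerIn (W : Set E) (f : E → ℝ) : Set (E × E) :=
  {q | f q.1 = 0 ∧ ‖q.2‖ = 1 ∧ inner ℝ q.2 (gradient f q.1) < 0 ∧
    ∃ n : ℕ, 1 ≤ n ∧ ∃ p u : ℕ → E,
      p 0 = q.1 ∧ u 0 = q.2 ∧ p n = q.1 ∧ u n = q.2 ∧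
      (∀ k < n, f (p k) = 0 ∧ ‖u k‖ = 1 ∧ inner ℝ (u k) (gradient f (p k)) < 0 ∧
        (∃ t : ℝ, 0 < t ∧ p (k + 1) = p k + t • u k ∧
          ∀ s ∈ Ioo (0 : ℝ) t, f (p k + s • u k) < 0) ∧
        u (k + 1) = u k - (2 * inner ℝ (u k) (gradient f (p (k + 1))) /
            ‖gradient f (p (k + 1))‖ ^ 2) • gradient f (p (k + 1))) ∧
      ∃ k < n, p k ∈ W}

/-- A periodic trajectory can be run twice. -/
theorem Traj.double {h : E → ℝ} {n : ℕ} {p u : ℕ → E} (H : Traj h n p u)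
    (hp : p n = p 0) (hu : u n = u 0) :
    Traj h (n + n) (fun k => if k < n then p k else p (k - n))
      (fun k => if k < n then u k else u (k - n)) := by
  set P : ℕ → E := fun k => if k < n then p k else p (k - n) with hP
  set U : ℕ → E := fun k => if k < n then u k else u (k - n) with hU
  have hp' : ∀ k, k ≤ n → P k = p k := by
    intro k hk
    rcases eq_or_lt_of_le hk with rfl | hk
    · simp [hP, hp]
    · simp [hP, hk]
  have hu' : ∀ k, k ≤ n → U k = u k := by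
    intro k hk
    rcases eq_or_lt_of_le hk with rfl | hk
    · simp [hU, hu]
    · simp [hU, hk]
  have hp2 : ∀ k, n ≤ k → P k = p (k - n) := by
    intro k hk
    simp only [hP]
    rw [if_neg (not_lt.2 hk)]
  have hu2 : ∀ k, n ≤ k → U k = u (k - n) := by
    intro k hk
    simp only [hU]
    rw [if_neg (not_lt.2 hk)]
  refine ⟨fun k hk => ?_, fun k hk => ?_⟩
  · rcases lt_or_ge k n with h1 | h1
    · rw [hp' k h1.le, hu' k h1.le]; exact H.1 k h1.le
    · rw [hp2 k h1, hu2 k h1]; exact H.1 (k - n) (by omega)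
  · rcases lt_or_ge k n with h1 | h1
    · rw [hp' k h1.le, hu' k h1.le, hp' (k + 1) h1, hu' (k + 1) h1]; exact H.2 k h1
    · rw [hp2 k h1, hu2 k h1, hp2 (k + 1) (by omega), hu2 (k + 1) (by omega)]
      have e : k + 1 - n = k - n + 1 := by omega
      rw [e]
      exact H.2 (k - n) (by omega)

theorem PerIn_subset (W : Set E) (h : E → ℝ) : PerIn W h ⊆ TwiceIn W h := by
  rintro ⟨q, v⟩ ⟨hq, hv, hqv, n, hn, p, u, hp0, hu0, hpn, hun, H, k, hk, hkW⟩
  simp only at hq hv hqv hp0 hu0 hpn hun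
  have HT : Traj h n p u := by
    refine ⟨fun k hk => ?_, fun k hk => (H k hk).2.2.2⟩
    rcases eq_or_lt_of_le hk with rfl | hk
    · rw [hpn, hun]; exact ⟨hq, hv, hqv⟩
    · exact ⟨(H k hk).1, (H k hk).2.1, (H k hk).2.2.1⟩
  refine ⟨n + n, _, _, HT.double (hpn.trans hp0.symm) (hun.trans hu0.symm), ?_, ?_,
    k, k + n, by omega, by omega, ?_, ?_⟩
  · simp only [if_pos (show 0 < n by omega)]; exact hp0
  · simp only [if_pos (show 0 < n by omega)]; exact hu0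
  · simp [hk]
  · simpa [hk] using hkW

theorem Per_subset_PerIn (h : E → ℝ) : Per h ⊆ PerIn univ h := by
  rintro ⟨q, v⟩ ⟨hq, hv, hqv, n, hn, p, u, hp0, hu0, hpn, hun, H⟩
  exact ⟨hq, hv, hqv, n, hn, p, u, hp0, hu0, hpn, hun, H, 0, by omega, mem_univ _⟩

/-- The phase points in `W` whose trajectory comes back to its first bounce point. -/
def ReturnIn (W : Set E) (h : E → ℝ) : Set (E × E) :=
  {x | x.1 ∈ W ∧ ∃ (n : ℕ) (p u : ℕ → E), 1 ≤ n ∧ Traj h n p u ∧ p 0 = x.1 ∧ u 0 = x.2 ∧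
    p n = p 0}

theorem TwiceIn_subset (W : Set E) (h : E → ℝ) :
    TwiceIn W h ⊆ ⋃ k : ℕ, Back h (ReturnIn W h) k := by
  rintro ⟨q, v⟩ ⟨n, p, u, H, hp, hu, k, l, hkl, hln, hpkl, hW⟩
  simp only at hp hu
  have hk : (p k, u k) ∈ ReturnIn W h := by
    obtain ⟨m, rfl⟩ : ∃ m, l = m + k := ⟨l - k, by omega⟩
    have H1 : Traj h m (fun i => p (i + k)) (fun i => u (i + k)) := (H.mono hln).shift
    refine ⟨hW, m, _, _, by omega, H1, ?_, ?_, ?_⟩
    · simp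
    · simp
    · simpa using hpkl.symm
  have := H.mem_back (A := ReturnIn W h) (k := k) k (by omega) le_rfl hk
  rw [Nat.sub_self, hp, hu] at this
  exact mem_iUnion.2 ⟨k, this⟩

/-- The directions `± b i`. -/
noncomputable def dirs (E : Type) [NormedAddCommGroup E] [InnerProductSpace ℝ E]
    [FiniteDimensional ℝ E] (i : Fin (Module.finrank ℝ E) × Bool) : E :=
  if i.2 then stdOrthonormalBasis ℝ E i.1 else -stdOrthonormalBasis ℝ E i.1

theorem dirs_norm (i : Fin (Module.finrank ℝ E) × Bool) : ‖dirs E i‖ = 1 := by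
  unfold dirs
  split_ifs
  · exact (stdOrthonormalBasis ℝ E).norm_eq_one _
  · rw [norm_neg]; exact (stdOrthonormalBasis ℝ E).norm_eq_one _

theorem exists_dir {v : E} (hv : v ≠ 0) : ∃ i, 0 < inner ℝ (dirs E i) v := by
  have hex : ∃ i, inner ℝ (stdOrthonormalBasis ℝ E i) v ≠ 0 := by
    by_contra hcon
    push Not at hcon
    apply hv
    rw [← (stdOrthonormalBasis ℝ E).sum_repr' v]
    exact Finset.sum_eq_zero fun i _ => by rw [hcon i, zero_smul]
  obtain ⟨i, hi⟩ := hex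
  rcases lt_or_gt_of_ne hi with h | h
  · refine ⟨(i, false), ?_⟩
    simp only [dirs, Bool.false_eq_true, if_false, inner_neg_left]
    linarith
  · exact ⟨(i, true), by simpa [dirs] using h⟩

section meas
variable [MeasurableSpace E] [BorelSpace E]

/-- If for a countable family of functions `g j` which separates the points of `W` from finite sets
all the sets of lines with loops are null, then almost every trajectory which starts in `W` never
comes back to its first bounce point. -/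
theorem null_ReturnIn (HR : S_RETR) {h : E → ℝ} (hh : ContDiff ℝ 2 h) {d : ℕ} (hd : 2 ≤ d)
    (hE : Module.finrank ℝ E = d) (W : Set E) (g : ℕ → E → ℝ)
    (hsep : ∀ q ∈ W, ∀ S : Set E, S.Finite → q ∉ S → ∃ j, 0 < g j q ∧ ∀ x ∈ S, g j x = 0)
    (hL : ∀ (j n m : ℕ) (i : Fin (Module.finrank ℝ E) × Bool), 1 ≤ n →
      μH[((2 * d - 2 : ℕ) : ℝ)]
        (Lines h (g j) (dirs E i) n (1 / ((m : ℝ) + 1)) ((m : ℝ) + 1)) = 0) :
    μH[((2 * d - 2 : ℕ) : ℝ)] (ReturnIn W h) = 0 := by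
  have hs : (0 : ℝ) ≤ ((2 * d - 2 : ℕ) : ℝ) := Nat.cast_nonneg _
  set P : Set (E × E) := {x : E × E | ∃ (n : ℕ) (p u : ℕ → E), 1 ≤ n ∧ Traj h n p u ∧
    p 0 = x.1 ∧ u 0 = x.2 ∧ p n = p 0 ∧ u (n - 1) = -u 0} with hP
  have hcov : ReturnIn W h ⊆ P ∪ ⋃ z : ℕ × ℕ × ℕ × (Fin (Module.finrank ℝ E) × Bool),
      OnLines h (dirs E z.2.2.2) {x | 1 ≤ z.2.1 ∧ x ∈ Lines h (g z.1) (dirs E z.2.2.2) z.2.1
        (1 / ((z.2.2.1 : ℝ) + 1)) ((z.2.2.1 : ℝ) + 1)} := by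
    classical
    rintro ⟨q, v⟩ ⟨hqW, n₀, p, u, hn₀, H₀, hp, hu, hret₀⟩
    simp only at hp hu hqW
    -- the first return
    have hex : ∃ n, 1 ≤ n ∧ p n = p 0 := ⟨n₀, hn₀, hret₀⟩
    set n := Nat.find hex with hndef
    have hn : 1 ≤ n := (Nat.find_spec hex).1
    have hret : p n = p 0 := (Nat.find_spec hex).2
    have hnn₀ : n ≤ n₀ := Nat.find_min' hex ⟨hn₀, hret₀⟩
    have hmin : ∀ k, 0 < k → k < n → p k ≠ p 0 := fun k hk hkn h0 =>
      Nat.find_min hex hkn ⟨hk, h0⟩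
    have H : Traj h n p u := H₀.mono hnn₀
    by_cases hneg : u (n - 1) = -u 0
    · exact Or.inl ⟨n, p, u, hn, H, hp, hu, hret, hneg⟩
    · right
      obtain ⟨j, hj, hj0⟩ := hsep (p 0) (by rw [hp]; exact hqW) (p '' (Ioo 0 n))
        ((Set.finite_Ioo 0 n).image _) (by
        rintro ⟨k, hk, hk0⟩
        exact hmin k hk.1 hk.2 hk0)
      have hu0 : u 0 ≠ 0 := by
        intro h0
        have := (H.1 0 (Nat.zero_le _)).2.1
        rw [h0, norm_zero] at this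
        exact zero_ne_one this
      obtain ⟨i, hi⟩ := exists_dir hu0
      obtain ⟨m, hm⟩ := loop_of_traj H hret hneg hj
        (fun k hk hkn => hj0 _ ⟨k, ⟨hk, hkn⟩, rfl⟩) (dirs_norm i) hi
      refine mem_iUnion.2 ⟨(j, n, m, i), ?_⟩
      rw [← hp, ← hu]
      have e : {x | 1 ≤ n ∧ x ∈ Lines h (g j) (dirs E i) n (1 / ((m : ℝ) + 1)) ((m : ℝ) + 1)} =
          Lines h (g j) (dirs E i) n (1 / ((m : ℝ) + 1)) ((m : ℝ) + 1) := by
        ext x
        simp [hn]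
      simp only [e]
      exact hm
  refine measure_mono_null hcov (measure_union_null (null_retrace HR hh hd hE)
    (measure_iUnion_null fun z => ?_))
  refine null_OnLines hh hs (dirs_norm _) _ ?_
  by_cases hz : 1 ≤ z.2.1
  · exact measure_mono_null (fun x hx => hx.2) (hL z.1 z.2.1 z.2.2.1 z.2.2.2 hz)
  · refine measure_mono_null (fun x hx => ?_) (measure_empty)
    exact absurd hx.1 hz

theorem null_TwiceIn {h : E → ℝ} (hh : ContDiff ℝ 2 h) {s : ℝ} (hs : 0 ≤ s) (W : Set E)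
    (hR : μH[s] (ReturnIn W h) = 0) : μH[s] (TwiceIn W h) = 0 :=
  measure_mono_null (TwiceIn_subset W h)
    (measure_iUnion_null fun k => null_Back hh hs _ hR k)

end meas

end Pool.Agent.Y322.IV
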