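import Mathlib

/-!
# Definitions for the theorem on almost every perturbation of a billiard table

`h : E → ℝ` defines the table `{h < 0}`; `Traj h n p u` is a piece of a billiard trajectory with the
bounce points `p 0, ..., p n` and the (outgoing) velocities `u 0, ..., u n`.
-/

set_option autoImplicit false

open Set MeasureTheory Function
open scoped unitInterval ContDiff

namespace Pool.Agent.Y322.IV

variable {E : Type*} [NormedAddCommGroup E] [InnerProductSpace ℝ E] [CompleteSpace E]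

/-- `(p k, u k)`, `k = 0, ..., n`, is a piece of a billiard trajectory in the table `{h < 0}`, all of
whose bounces (the first and the last point included) are transversal: `h (p k) = 0`, the velocity
`u k` is a unit vector which points into the table, the particle stays in the table between `p k` and
`p (k+1)`, and `u (k+1)` is the reflected velocity. -/
def Traj (h : E → ℝ) (n : ℕ) (p u : ℕ → E) : Prop :=
  (∀ k ≤ n, h (p k) = 0 ∧ ‖u k‖ = 1 ∧ inner ℝ (u k) (gradient h (p k)) < 0) ∧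
  ∀ k < n, (∃ t : ℝ, 0 < t ∧ p (k + 1) = p k + t • u k ∧
      ∀ s ∈ Ioo (0 : ℝ) t, h (p k + s • u k) < 0) ∧
    u (k + 1) = u k - (2 * inner ℝ (u k) (gradient h (p (k + 1))) /
      ‖gradient h (p (k + 1))‖ ^ 2) • gradient h (p (k + 1))

/-- The phase points `(q, v)` whose trajectory meets some boundary point twice. -/
def Twice (h : E → ℝ) : Set (E × E) :=
  {x | ∃ (n : ℕ) (p u : ℕ → E), Traj h n p u ∧ p 0 = x.1 ∧ u 0 = x.2 ∧
    ∃ k l : ℕ, k < l ∧ l ≤ n ∧ p k = p l}

/-- The periodic phase points (the set of the frozen statement). -/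
def Per (f : E → ℝ) : Set (E × E) :=
  {q | f q.1 = 0 ∧ ‖q.2‖ = 1 ∧ inner ℝ q.2 (gradient f q.1) < 0 ∧
    ∃ n : ℕ, 1 ≤ n ∧ ∃ p u : ℕ → E,
      p 0 = q.1 ∧ u 0 = q.2 ∧ p n = q.1 ∧ u n = q.2 ∧
      ∀ k < n, f (p k) = 0 ∧ ‖u k‖ = 1 ∧ inner ℝ (u k) (gradient f (p k)) < 0 ∧
        (∃ t : ℝ, 0 < t ∧ p (k + 1) = p k + t • u k ∧
          ∀ s ∈ Ioo (0 : ℝ) t, f (p k + s • u k) < 0) ∧
        u (k + 1) = u k - (2 * inner ℝ (u k) (gradient f (p (k + 1))) /
            ‖gradient f (p (k + 1))‖ ^ 2) • gradient f (p (k + 1))}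

/-- The phase points whose trajectory comes back to its first bounce point `q` (with any velocity)
after some number of bounces, where `g q > 0`, all the bounces in between being at points where `g`
vanishes. -/
def LocalReturn (h g : E → ℝ) : Set (E × E) :=
  {x | ∃ (n : ℕ) (p u : ℕ → E), 1 ≤ n ∧ Traj h n p u ∧ p 0 = x.1 ∧ u 0 = x.2 ∧ p n = p 0 ∧
    0 < g (p 0) ∧ ∀ k, 0 < k → k < n → g (p k) = 0}

/-- The perturbed function `f + ∑ j, t j * g j`. -/
noncomputable def pert (f : E → ℝ) (g : ℕ → E → ℝ) (t : ℕ → I) (x : E) : ℝ :=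
  f x + ∑' j, (t j : ℝ) * g j x

/-- Closed version of a loop: a trajectory of `n` steps which starts on the oriented line through `y`
with direction `e + w`, comes back to its first bounce point, has all its constants bounded by
`c` and `M`, and does not come back along the same line. `G` stands for the gradient of `h`. -/
structure LoopAt (h : E → ℝ) (G : E → E) (g : E → ℝ) (e y w : E) (n : ℕ) (c M : ℝ) (a : ℝ)
    (p u : ℕ → E) (τ : ℕ → ℝ) : Prop where
  ybd : ‖y‖ ≤ M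
  wbd : ‖w‖ ≤ M
  abd : |a| ≤ M
  start : p 0 = y + a • (e + w)
  dir : ‖e + w‖ • u 0 = e + w
  zero : ∀ k ≤ n, h (p k) = 0
  unit : ∀ k ≤ n, ‖u k‖ = 1
  out : ∀ k ≤ n, inner ℝ (u k) (G (p k)) ≤ -c
  tlo : ∀ k < n, c ≤ τ k
  thi : ∀ k < n, τ k ≤ M
  move : ∀ k < n, p (k + 1) = p k + τ k • u k
  neg : ∀ k < n, ∀ s ∈ Icc (0 : ℝ) (τ k), h (p k + s • u k) ≤ 0
  refl : ∀ k < n, ‖G (p (k + 1))‖ ^ 2 • u (k + 1) =
    ‖G (p (k + 1))‖ ^ 2 • u k - (2 * inner ℝ (u k) (G (p (k + 1)))) • G (p (k + 1))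
  ret : p n = p 0
  gpos : c ≤ g (p 0)
  gzero : ∀ k, 0 < k → k < n → g (p k) = 0
  nonret : c ≤ ‖u (n - 1) + u 0‖

/-- The set of the parameters `t` and lines `(y, w)` which carry a closed loop. -/
def LoopSet {T : Type*} (F : T → E → ℝ) (G : T → E → E) (g : E → ℝ) (e : E) (n : ℕ) (c M : ℝ) :
    Set (T × ((ℝ ∙ e)ᗮ × (ℝ ∙ e)ᗮ)) :=
  {z | ∃ (a : ℝ) (p u : ℕ → E) (τ : ℕ → ℝ),
    LoopAt (F z.1) (G z.1) g e (z.2.1 : E) (z.2.2 : E) n c M a p u τ}

end Pool.Agent.Y322.IV
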