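import Pool.Agent.Y322.IV.Def

/-!
# Hausdorff null sets under locally Lipschitz relations
-/

set_option autoImplicit false

open Set MeasureTheory Function Topology
open scoped NNReal ENNReal

namespace Pool.Agent.Y322.IV

/-- A relation which is locally a Lipschitz function of the first variable preserves sets of
Hausdorff measure zero. -/
theorem null_rel {X Y : Type*} [MetricSpace X] [MeasurableSpace X] [BorelSpace X]
    [SecondCountableTopology X] [MetricSpace Y] [MeasurableSpace Y] [BorelSpace Y]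
    [SecondCountableTopology Y] {s : ℝ} (hs : 0 ≤ s) (R : Set (X × Y))
    (hR : ∀ z ∈ R, ∃ U ∈ 𝓝 z, ∃ K : ℝ≥0, ∀ z1 ∈ R ∩ U, ∀ z2 ∈ R ∩ U,
      dist z1.2 z2.2 ≤ K * dist z1.1 z2.1)
    (A : Set X) (hA : μH[s] A = 0) : μH[s] {y | ∃ x ∈ A, (x, y) ∈ R} = 0 := by
  classical
  choose! U hU K hK using hR
  obtain ⟨c, hcR, hcc, hcov⟩ := TopologicalSpace.countable_cover_nhdsWithin
    (s := R) (f := U) (fun z hz => mem_nhdsWithin_of_mem_nhds (hU z hz))
  have hsub : {y | ∃ x ∈ A, (x, y) ∈ R} ⊆ ⋃ z ∈ c, {y | ∃ x ∈ A, (x, y) ∈ R ∩ U z} := by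
    rintro y ⟨x, hx, hxy⟩
    obtain ⟨z, hz, hzU⟩ := mem_iUnion₂.1 (hcov hxy)
    exact mem_iUnion₂.2 ⟨z, hz, x, hx, hxy, hzU⟩
  refine measure_mono_null hsub ((measure_biUnion_null_iff hcc).2 fun z hz => ?_)
  have hzR := hcR hz
  have hKz := hK z hzR
  set A' : Set X := {x | x ∈ A ∧ ∃ y, (x, y) ∈ R ∩ U z} with hA'
  have hch : ∀ x : X, ∃ y : Y, x ∈ A' → (x, y) ∈ R ∩ U z := by
    intro x
    by_cases hx : x ∈ A'
    · obtain ⟨y, hy⟩ := hx.2
      exact ⟨y, fun _ => hy⟩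
    · by_cases hne : Nonempty Y
      · exact ⟨hne.some, fun h => absurd h hx⟩
      · exfalso
        exact hne ⟨z.2⟩
  choose φ hφ using hch
  have hlip : LipschitzOnWith (K z) φ A' := by
    refine LipschitzOnWith.of_dist_le_mul fun x hx x' hx' => ?_
    exact hKz (x, φ x) (hφ x hx) (x', φ x') (hφ x' hx')
  have himg : {y | ∃ x ∈ A, (x, y) ∈ R ∩ U z} ⊆ φ '' A' := by
    rintro y ⟨x, hx, hxy⟩
    have hxA : x ∈ A' := ⟨hx, y, hxy⟩
    refine ⟨x, hxA, ?_⟩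
    have := hKz (x, φ x) (hφ x hxA) (x, y) hxy
    simp only [dist_self, mul_zero] at this
    exact dist_le_zero.1 this
  refine measure_mono_null himg ?_
  refine le_antisymm ((hlip.hausdorffMeasure_image_le hs).trans ?_) bot_le
  rw [measure_mono_null (fun x hx => hx.1) hA, mul_zero]

/-- A function which is `C¹` at the points of `O` preserves null sets there. -/
theorem null_c1 {X Y : Type*} [NormedAddCommGroup X] [NormedSpace ℝ X] [MeasurableSpace X]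
    [BorelSpace X] [SecondCountableTopology X] [NormedAddCommGroup Y] [NormedSpace ℝ Y]
    [MeasurableSpace Y] [BorelSpace Y] [SecondCountableTopology Y] {s : ℝ} (hs : 0 ≤ s)
    (f : X → Y) (O : Set X) (hf : ∀ x ∈ O, ContDiffAt ℝ 1 f x)
    (A : Set X) (hA : μH[s] A = 0) : μH[s] (f '' (A ∩ O)) = 0 := by
  have h := null_rel hs {z : X × Y | z.1 ∈ O ∧ z.2 = f z.1} (fun z hz => ?_) A hA
  · refine measure_mono_null ?_ h
    rintro y ⟨x, ⟨hxA, hxO⟩, rfl⟩
    exact ⟨x, hxA, hxO, rfl⟩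
  · obtain ⟨K, t, ht, hK⟩ := (hf z.1 hz.1).exists_lipschitzOnWith
    refine ⟨t ×ˢ univ, prod_mem_nhds ht Filter.univ_mem, K, ?_⟩
    rintro z1 ⟨⟨_, h1⟩, h1t, -⟩ z2 ⟨⟨_, h2⟩, h2t, -⟩
    rw [h1, h2]
    exact hK.dist_le_mul _ h1t _ h2t

section
variable {E : Type*} [NormedAddCommGroup E] [InnerProductSpace ℝ E] [FiniteDimensional ℝ E]
  [MeasurableSpace E] [BorelSpace E]

omit [MeasurableSpace E] [BorelSpace E] in
theorem fderiv_eq_inner (h : E → ℝ) (x v : E) :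
    fderiv ℝ h x v = inner ℝ v (gradient h x) := by
  rw [real_inner_comm, gradient, InnerProductSpace.toDual_symm_apply]

/-- Moving along the line from `(x, v)` until `h` vanishes, transversally, preserves null sets. -/
theorem null_graph {h : E → ℝ} (hh : ContDiff ℝ 1 h) {s : ℝ} (hs : 0 ≤ s) (A : Set (E × E))
    (hA : μH[s] A = 0) :
    μH[s] {z : E × E | ∃ (x v : E) (τ : ℝ), (x, v) ∈ A ∧ h (x + τ • v) = 0 ∧
      inner ℝ v (gradient h (x + τ • v)) ≠ 0 ∧ z = (x + τ • v, v)} = 0 := by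
  -- the relation
  set R : Set ((E × E) × ((E × E) × ℝ)) := {z | z.2.1 = z.1 ∧
    h (z.1.1 + z.2.2 • z.1.2) = 0 ∧
    inner ℝ z.1.2 (gradient h (z.1.1 + z.2.2 • z.1.2)) ≠ 0} with hRdef
  have hR : ∀ z ∈ R, ∃ U ∈ 𝓝 z, ∃ K : ℝ≥0, ∀ z1 ∈ R ∩ U, ∀ z2 ∈ R ∩ U,
      dist z1.2 z2.2 ≤ K * dist z1.1 z2.1 := by
    rintro ⟨⟨x0, v0⟩, ⟨y0, τ0⟩⟩ ⟨hy0, hz0, hn0⟩
    simp only at hy0 hz0 hn0
    -- the function of `(x, v, τ)`
    set φ : (E × E) × ℝ → ℝ := fun w => h (w.1.1 + w.2 • w.1.2) with hφ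
    have hφc : ContDiff ℝ 1 φ := by
      have : ContDiff ℝ 1 (fun w : (E × E) × ℝ => w.1.1 + w.2 • w.1.2) := by fun_prop
      exact hh.comp this
    have hstrict : HasStrictFDerivAt φ (fderiv ℝ φ ((x0, v0), τ0)) ((x0, v0), τ0) :=
      (hφc.contDiffAt).hasStrictFDerivAt one_ne_zero
    set L := fderiv ℝ φ ((x0, v0), τ0) with hL
    set c : ℝ := L ((0, 0), 1) with hc
    have hc0 : c ≠ 0 := by
      have h1 : HasFDerivAt (fun w : (E × E) × ℝ => w.1.1 + w.2 • w.1.2)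
          (fderiv ℝ (fun w : (E × E) × ℝ => w.1.1 + w.2 • w.1.2) ((x0, v0), τ0))
          ((x0, v0), τ0) := by
        apply DifferentiableAt.hasFDerivAt
        fun_prop
      have h2 : c = fderiv ℝ h (x0 + τ0 • v0) v0 := by
        have hd : HasDerivAt (fun τ : ℝ => φ ((x0, v0), τ)) c τ0 := by
          have h3 : HasDerivAt (fun τ : ℝ => (((x0, v0), τ) : (E × E) × ℝ)) ((0, 0), 1) τ0 :=
            (hasDerivAt_const τ0 ((x0, v0) : E × E)).prodMk (hasDerivAt_id τ0)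
          have h4 := hstrict.hasFDerivAt
          exact HasFDerivAt.comp_hasDerivAt τ0 h4 h3
        have hd2 : HasDerivAt (fun τ : ℝ => φ ((x0, v0), τ)) (fderiv ℝ h (x0 + τ0 • v0) v0) τ0 := by
          have h5 : HasDerivAt (fun τ : ℝ => x0 + τ • v0) v0 τ0 := by
            have := ((hasDerivAt_id τ0).smul_const v0).const_add x0
            simpa using this
          have h6 : HasFDerivAt h (fderiv ℝ h (x0 + τ0 • v0)) (x0 + τ0 • v0) :=
            (hh.differentiable one_ne_zero _).hasFDerivAt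
          exact HasFDerivAt.comp_hasDerivAt τ0 h6 h5
        exact hd.unique hd2
      rw [h2, fderiv_eq_inner]
      exact hn0
    have hlo := hstrict.isLittleO
    have hε : 0 < |c| / 2 := by positivity
    have hev := (Asymptotics.isLittleO_iff.1 hlo) hε
    -- a neighbourhood of the point
    obtain ⟨V, hV, hVs⟩ := Filter.Eventually.exists_mem hev
    rw [nhds_prod_eq] at hV
    obtain ⟨V1, hV1, hV1s⟩ := Filter.mem_prod_self_iff.1 hV
    have hcont : Filter.Tendsto (fun z : (E × E) × ((E × E) × ℝ) => (z.1, z.2.2))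
        (𝓝 ((x0, v0), (y0, τ0))) (𝓝 ((x0, v0), τ0)) := by
      have : Continuous (fun z : (E × E) × ((E × E) × ℝ) => (z.1, z.2.2)) := by fun_prop
      exact this.tendsto ((x0, v0), (y0, τ0))
    refine ⟨_, hcont hV1, Real.toNNReal (1 + (2 / |c|) * (‖L‖ + |c| / 2)), ?_⟩
    rintro ⟨⟨x1, v1⟩, ⟨y1, τ1⟩⟩ ⟨⟨hy1, hz1, hn1⟩, hU1⟩ ⟨⟨x2, v2⟩, ⟨y2, τ2⟩⟩ ⟨⟨hy2, hz2, hn2⟩, hU2⟩
    simp only at hy1 hz1 hn1 hy2 hz2 hn2
    simp only [mem_preimage] at hU1 hU2
    have hm := hVs _ (hV1s (mk_mem_prod hU1 hU2))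
    subst hy1 hy2
    simp only [hφ, hz1, hz2, sub_self, zero_sub, norm_neg] at hm
    set δ : E × E := (x1, v1) - (x2, v2) with hδ
    have hdiff : (((x1, v1), τ1) : (E × E) × ℝ) - ((x2, v2), τ2) = (δ, τ1 - τ2) := rfl
    rw [hdiff] at hm
    have hsplit : L (δ, τ1 - τ2) = L (δ, 0) + (τ1 - τ2) * c := by
      have : ((δ, τ1 - τ2) : (E × E) × ℝ) = (δ, 0) + (τ1 - τ2) • (((0, 0), 1) : (E × E) × ℝ) := by
        ext <;> simp
      rw [this, map_add, map_smul, smul_eq_mul]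
    have hLδ : |L (δ, 0)| ≤ ‖L‖ * ‖δ‖ := by
      have := L.le_opNorm (δ, 0)
      have hn : ‖((δ, 0) : (E × E) × ℝ)‖ = ‖δ‖ := by
        rw [Prod.norm_def]
        simp
      rw [hn] at this
      exact this
    have hnorm : ‖((δ, τ1 - τ2) : (E × E) × ℝ)‖ ≤ ‖δ‖ + |τ1 - τ2| := by
      rw [Prod.norm_def]
      exact max_le (le_add_of_nonneg_right (abs_nonneg _))
        (by rw [Real.norm_eq_abs]; exact le_add_of_nonneg_left (norm_nonneg _))
    have hkey : |τ1 - τ2| * |c| ≤ ‖L‖ * ‖δ‖ + |c| / 2 * (‖δ‖ + |τ1 - τ2|) := by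
      have h1 : |(τ1 - τ2) * c| ≤ |L (δ, τ1 - τ2)| + |L (δ, 0)| := by
        have : (τ1 - τ2) * c = L (δ, τ1 - τ2) - L (δ, 0) := by rw [hsplit]; ring
        rw [this]
        exact abs_sub _ _
      rw [abs_mul] at h1
      have h2 : |L (δ, τ1 - τ2)| ≤ |c| / 2 * (‖δ‖ + |τ1 - τ2|) := by
        have := hm
        rw [Real.norm_eq_abs] at this
        exact this.trans (mul_le_mul_of_nonneg_left hnorm hε.le)
      linarith
    have hτ : |τ1 - τ2| ≤ (2 / |c|) * (‖L‖ + |c| / 2) * ‖δ‖ := by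
      have hcp : 0 < |c| := abs_pos.2 hc0
      have : |τ1 - τ2| * (|c| / 2) ≤ (‖L‖ + |c| / 2) * ‖δ‖ := by nlinarith
      have h3 : |τ1 - τ2| = (2 / |c|) * (|τ1 - τ2| * (|c| / 2)) := by
        field_simp
      rw [h3, mul_assoc]
      exact mul_le_mul_of_nonneg_left this (by positivity)
    have hfin : dist (((x1, v1), τ1) : (E × E) × ℝ) ((x2, v2), τ2) ≤
        (1 + (2 / |c|) * (‖L‖ + |c| / 2)) * dist ((x1, v1) : E × E) (x2, v2) := by
      rw [dist_eq_norm, hdiff, dist_eq_norm, ← hδ]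
      refine hnorm.trans ?_
      nlinarith [norm_nonneg δ]
    refine hfin.trans (mul_le_mul_of_nonneg_right ?_ dist_nonneg)
    exact Real.le_coe_toNNReal _
  have h1 := null_rel hs R hR A hA
  have h2 := null_c1 hs (fun w : (E × E) × ℝ => (w.1.1 + w.2 • w.1.2, w.1.2)) univ
    (fun x _ => by fun_prop) _ h1
  refine measure_mono_null ?_ h2
  rintro z ⟨x, v, τ, hxA, hz, hn, rfl⟩
  exact ⟨((x, v), τ), ⟨⟨(x, v), hxA, rfl, hz, hn⟩, mem_univ _⟩, rfl⟩

end

end Pool.Agent.Y322.IV
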