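import Pool.Agent.Y322.IV.Def

set_option autoImplicit false

open Set MeasureTheory Function
open scoped unitInterval ContDiff

namespace Pool.Agent.Y322.IV

/-- IV-DISJ: the same line cannot carry a loop through the bump region for two different heights of
the bump. -/
def S_DISJ : Prop :=
  ∀ (E : Type) [NormedAddCommGroup E] [InnerProductSpace ℝ E] [FiniteDimensional ℝ E]
    (h h' g : E → ℝ) (ρ : ℝ), Differentiable ℝ h → Differentiable ℝ h' → Differentiable ℝ g →
    (∀ x, 0 ≤ g x) → Convex ℝ {x | 0 < g x} → (∀ x, h' x = h x + ρ * g x) →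
    ∀ (e w y : E) (n : ℕ) (c M M' a a' : ℝ) (p u p' u' : ℕ → E) (τ τ' : ℕ → ℝ),
      1 ≤ n → 0 < c → e + w ≠ 0 →
      LoopAt h (gradient h) g e y w n c M a p u τ →
      LoopAt h' (gradient h') g e y w n c M' a' p' u' τ' → ρ = 0

/-- IV-FUB: a measurable set which meets every line in the direction of the `j`-th parameter in at
most one point has almost all its slices null. -/
def S_FUB : Prop :=
  ∀ (X : Type) [MeasurableSpace X] (ν : Measure X) [SFinite ν] (j : ℕ)
    (C : Set ((ℕ → I) × X)), MeasurableSet C →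
    (∀ (t : ℕ → I) (r r' : I) (x : X), (update t j r, x) ∈ C → (update t j r', x) ∈ C → r = r') →
    ∀ᵐ t ∂(Measure.infinitePi (fun _ : ℕ => (volume : Measure I))), ν {x | (t, x) ∈ C} = 0

/-- IV-RETR: a trajectory which comes back to its first bounce point along the line of departure has
hit the boundary perpendicularly half way. -/
def S_RETR : Prop :=
  ∀ (E : Type) [NormedAddCommGroup E] [InnerProductSpace ℝ E] [FiniteDimensional ℝ E]
    (h : E → ℝ) (n : ℕ) (p u : ℕ → E), 1 ≤ n → Traj h n p u → p n = p 0 → u (n - 1) = -u 0 →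
    ∃ r : ℕ, 1 ≤ r ∧ n = 2 * r ∧ u r = -(‖gradient h (p r)‖⁻¹ • gradient h (p r))

end Pool.Agent.Y322.IV
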