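import Pool.Agent.Y322.IV.Thin
import Pool.Agent.Y322.IV.Bump2
import Pool.Agent.Y306.IV.Closed
import Pool.Agent.Y502.IV.Disj
import Pool.Agent.Y165.IV.Fub
import Pool.Agent.Y515.IV.Retr
import Pool.Agent.Y977.IV.Pert

/-!
# Almost every perturbation of a billiard table
-/

set_option autoImplicit false

open Set MeasureTheory Function Topology Filter Metric
open scoped unitInterval ContDiff

namespace Pool.Agent.Y322.IV

variable {E : Type} [NormedAddCommGroup E] [InnerProductSpace ℝ E] [FiniteDimensional ℝ E]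

omit [NormedAddCommGroup E] [InnerProductSpace ℝ E] [FiniteDimensional ℝ E] in
theorem pert_eq (f : E → ℝ) (g : ℕ → E → ℝ) (t : ℕ → I) :
    pert f g t = fun x => f x + pert (fun _ => 0) g t x := by
  funext x
  simp [pert]

omit [FiniteDimensional ℝ E] in
theorem pert_small {ε : ℝ} {N : ℕ} {g : ℕ → E → ℝ} (hg : ∀ j, ContDiff ℝ ∞ (g j))
    (hc : ∀ j, HasCompactSupport (g j))
    (hb : ∀ j k : ℕ, k ≤ N + j → ∀ x, ‖iteratedFDeriv ℝ k (g j) x‖ ≤ ε / 2 ^ (j + 1))
    (f : E → ℝ) (t : ℕ → I) (k : ℕ) (hk : k ≤ N) (x : E) :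
    ‖iteratedFDeriv ℝ k (fun x => pert f g t x - f x) x‖ ≤ ε := by
  have hb' : ∀ j k : ℕ, k ≤ j → ∀ x, ‖iteratedFDeriv ℝ k (g j) x‖ ≤ ε / 2 ^ j := by
    intro j k hk x
    have h1 := hb j k (by omega) x
    have h0 := (norm_nonneg _).trans h1
    have h2 : ε / 2 ^ j = 2 * (ε / 2 ^ (j + 1)) := by
      rw [pow_succ]; field_simp
    rw [h2]
    linarith
  obtain ⟨v, hv, hvb⟩ := Pool.Agent.Y977.IV.bounds hg hc hb'
  have h1 : (fun x => pert f g t x - f x) = fun x => ∑' j, (t j : ℝ) * g j x := by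
    funext x
    simp [pert]
  have hpt : ∀ (k j : ℕ) (x : E), iteratedFDeriv ℝ k (fun x => (t j : ℝ) * g j x) x =
      (t j : ℝ) • iteratedFDeriv ℝ k (g j) x := by
    intro k j x
    exact iteratedFDeriv_const_smul_apply' (a := (t j : ℝ))
        (((hg j).of_le (by exact_mod_cast le_top)).contDiffAt)
  have h2 := iteratedFDeriv_tsum (𝕜 := ℝ) (f := fun j x => (t j : ℝ) * g j x) (v := v) (N := ⊤)
    (fun j => contDiff_const.mul (hg j)) (fun k _ => hv k) (by
      intro k j x _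
      rw [hpt, norm_smul]
      calc ‖(t j : ℝ)‖ * ‖iteratedFDeriv ℝ k (g j) x‖ ≤ 1 * v k j :=
          mul_le_mul (Pool.Agent.Y977.IV.abs_I _) (hvb k j x) (norm_nonneg _) zero_le_one
        _ = v k j := one_mul _) (k := k) le_top
  rw [h1, h2]
  have h3 : ∀ j, ‖iteratedFDeriv ℝ k (fun x => (t j : ℝ) * g j x) x‖ ≤ ε / 2 ^ (j + 1) := by
    intro j
    rw [hpt, norm_smul]
    calc ‖(t j : ℝ)‖ * ‖iteratedFDeriv ℝ k (g j) x‖ ≤ 1 * (ε / 2 ^ (j + 1)) :=
        mul_le_mul (Pool.Agent.Y977.IV.abs_I _) (hb j k (by omega) x) (norm_nonneg _) zero_le_one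
      _ = ε / 2 ^ (j + 1) := one_mul _
  have h4 : HasSum (fun j : ℕ => ε / 2 ^ (j + 1)) ε := by
    have := hasSum_geometric_two' ε
    refine this.congr_fun ?_ |> fun h => h
    intro j
    rw [pow_succ]
    field_simp
  exact tsum_of_norm_bounded h4 h3

omit [InnerProductSpace ℝ E] [FiniteDimensional ℝ E] in
theorem pert_outside {W : Set E} {g : ℕ → E → ℝ} (hg : ∀ j, tsupport (g j) ⊆ W) (f : E → ℝ)
    (t : ℕ → I) (x : E) (hx : x ∉ W) : pert f g t x = f x := by
  have h1 : ∀ j, g j x = 0 := fun j => image_eq_zero_of_notMem_tsupport fun h => hx (hg j h)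
  simp [pert, h1]

/-- The properties of the family which the argument uses. -/
theorem pert_props {N : ℕ} {ε : ℝ} {g : ℕ → E → ℝ} (hg : ∀ j, ContDiff ℝ ∞ (g j))
    (hc : ∀ j, HasCompactSupport (g j))
    (hb : ∀ j k : ℕ, k ≤ N + j → ∀ x, ‖iteratedFDeriv ℝ k (g j) x‖ ≤ ε / 2 ^ (j + 1))
    {m : WithTop ℕ∞} (hm2 : 2 ≤ m) (hm : m ≤ ∞) {f : E → ℝ} (hf : ContDiff ℝ m f) :
    (∀ t : ℕ → I, ContDiff ℝ m (pert f g t)) ∧
      Continuous (fun z : (ℕ → I) × E => pert f g z.1 z.2) ∧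
      Continuous (fun z : (ℕ → I) × E => gradient (pert f g z.1) z.2) ∧
      ∀ (t : ℕ → I) (j : ℕ) (r r' : I) (x : E),
        pert f g (update t j r) x = pert f g (update t j r') x + ((r : ℝ) - (r' : ℝ)) * g j x := by
  have hb' : ∀ j k : ℕ, k ≤ j → ∀ x, ‖iteratedFDeriv ℝ k (g j) x‖ ≤ ε / 2 ^ j := by
    intro j k hk x
    have h1 := hb j k (by omega) x
    have h0 := (norm_nonneg _).trans h1
    have h2 : ε / 2 ^ j = 2 * (ε / 2 ^ (j + 1)) := by
      rw [pow_succ]; field_simp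
    rw [h2]
    linarith
  obtain ⟨p1, p2, p3, p4⟩ := Pool.Agent.Y977.IV.prove_pert E ε g hg hc hb' (fun _ => 0)
    contDiff_const
  have hf1 : Differentiable ℝ f := (hf.of_le hm2).differentiable (by norm_num)
  have hfg : Continuous (gradient f) := (contDiff_gradient (hf.of_le hm2)).continuous
  refine ⟨fun t => ?_, ?_, ?_, fun t j r r' x => ?_⟩
  · rw [pert_eq]
    exact hf.add ((p1 t).of_le hm)
  · have : (fun z : (ℕ → I) × E => pert f g z.1 z.2) =
        fun z => f z.2 + pert (fun _ => 0) g z.1 z.2 := by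
      funext z
      rw [pert_eq f g z.1]
    rw [this]
    exact (hf.continuous.comp continuous_snd).add p2
  · have : (fun z : (ℕ → I) × E => gradient (pert f g z.1) z.2) =
        fun z => gradient f z.2 + gradient (pert (fun _ => 0) g z.1) z.2 := by
      funext z
      have h1 := gradient_add_smul (h := f) (g := pert (fun _ => 0) g z.1) hf1
        ((p1 z.1).differentiable (by simp)) 1 z.2
      simp only [one_mul, one_smul] at h1
      rw [pert_eq f g z.1, h1]
    rw [this]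
    exact (hfg.comp continuous_snd).add p3
  · rw [pert_eq f g (update t j r), pert_eq f g (update t j r')]
    simp only
    rw [p4 t j r r' x]
    ring

section meas
variable [MeasurableSpace E] [BorelSpace E]

/-- Good tables. -/
def Good (d : ℕ) (W : Set E) (h : E → ℝ) : Prop :=
  μH[((2 * d - 2 : ℕ) : ℝ)] (TwiceIn W h) = 0 ∧ μH[((2 * d - 2 : ℕ) : ℝ)] (PerIn W h) = 0

theorem good_of_lines {h : E → ℝ} (hh : ContDiff ℝ 2 h) {d : ℕ} (hd : 2 ≤ d)
    (hE : Module.finrank ℝ E = d) (W : Set E) (g : ℕ → E → ℝ)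
    (hsep : ∀ q ∈ W, ∀ S : Set E, S.Finite → q ∉ S → ∃ j, 0 < g j q ∧ ∀ x ∈ S, g j x = 0)
    (hL : ∀ (j n m : ℕ) (i : Fin (Module.finrank ℝ E) × Bool), 1 ≤ n →
      μH[((2 * d - 2 : ℕ) : ℝ)]
        (Lines h (g j) (dirs E i) n (1 / ((m : ℝ) + 1)) ((m : ℝ) + 1)) = 0) : Good d W h := by
  have h1 := null_TwiceIn hh (Nat.cast_nonneg _) W
    (null_ReturnIn Pool.Agent.Y515.IV.prove_retr hh hd hE W g hsep hL)
  exact ⟨h1, measure_mono_null (PerIn_subset W h) h1⟩

theorem main_thm {d : ℕ} (hd : 2 ≤ d) (hE : Module.finrank ℝ E = d) (W : Set E) (hW : IsOpen W)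
    (N : ℕ) (ε : ℝ) (hε : 0 < ε) :
    ∃ g : ℕ → E → ℝ, (∀ j, ContDiff ℝ ∞ (g j)) ∧ (∀ j, HasCompactSupport (g j)) ∧
      (∀ j, tsupport (g j) ⊆ W) ∧ (∀ j x, 0 ≤ g j x) ∧
      (∀ j k : ℕ, k ≤ N + j → ∀ x, ‖iteratedFDeriv ℝ k (g j) x‖ ≤ ε / 2 ^ (j + 1)) ∧
      ∀ (m : WithTop ℕ∞), 2 ≤ m → m ≤ ∞ → ∀ f : E → ℝ, ContDiff ℝ m f →
        (∀ t : ℕ → I, ContDiff ℝ m (pert f g t) ∧ (∀ x ∉ W, pert f g t x = f x) ∧
          ∀ k ≤ N, ∀ x, ‖iteratedFDeriv ℝ k (fun x => pert f g t x - f x) x‖ ≤ ε) ∧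
        (∃ K : ℕ → ℕ → Set (ℕ → I), (∀ j i, IsClosed (K j i)) ∧
          (∀ j i t, {r : I | update t j r ∈ K j i}.Finite) ∧
          ∀ t, (∀ j i, t ∉ K j i) → Good d W (pert f g t)) ∧
        (∀ᵐ t ∂(Measure.infinitePi (fun _ : ℕ => (volume : Measure I))),
          Good d W (pert f g t)) ∧
        ∀ᶠ t in residual (ℕ → I), Good d W (pert f g t) := by
  classical
  obtain ⟨g, hg, hc, hsup, hg0, hgc, hb0, hsep⟩ := bumps E W hW N (ε / 2) (by positivity)
  have hb : ∀ j k : ℕ, k ≤ N + j → ∀ x, ‖iteratedFDeriv ℝ k (g j) x‖ ≤ ε / 2 ^ (j + 1) := by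
    intro j k hk x
    have h1 := hb0 j k hk x
    have h2 : ε / 2 ^ (j + 1) = ε / 2 / 2 ^ j := by
      rw [pow_succ]; field_simp
    rw [h2]
    exact h1
  refine ⟨g, hg, hc, hsup, hg0, hb, fun m hm2 hm f hf => ?_⟩
  obtain ⟨p1, p2, p3, p4⟩ := pert_props hg hc hb hm2 hm hf
  have hp2 : ∀ t, ContDiff ℝ 2 (pert f g t) := fun t => (p1 t).of_le hm2
  have hpd : ∀ t, Differentiable ℝ (pert f g t) := fun t => (hp2 t).differentiable (by norm_num)
  have hgd : ∀ j, Differentiable ℝ (g j) := fun j => (hg j).differentiable (by simp)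
  have hcm : ∀ m : ℕ, (0 : ℝ) < 1 / ((m : ℝ) + 1) := fun m => by positivity
  refine ⟨fun t => ⟨p1 t, fun x hx => pert_outside hsup f t x hx,
    fun k hk x => pert_small hg hc hb f t k hk x⟩, ?_, ?_, ?_⟩
  · -- the thin sets
    have hth : ∀ (j : ℕ) (z : ℕ × ℕ × (Fin (Module.finrank ℝ E) × Bool)),
        ∃ K : ℕ → Set (ℕ → I), (∀ i, IsClosed (K i)) ∧
        (∀ i t, {r : I | update t j r ∈ K i}.Finite) ∧
        ∀ t, (∀ i, t ∉ K i) → 1 ≤ z.1 → μH[((2 * d - 2 : ℕ) : ℝ)]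
          (Lines (pert f g t) (g j) (dirs E z.2.2) z.1 (1 / ((z.2.1 : ℝ) + 1))
            ((z.2.1 : ℝ) + 1)) = 0 := by
      intro j z
      by_cases hz : 1 ≤ z.1
      · obtain ⟨K, k1, k2, k3⟩ := thin_Lines Pool.Agent.Y306.IV.prove_closed
          Pool.Agent.Y502.IV.prove_disj hE (F := pert f g) (g := g j) (j := j) p2 p3 hpd (hgd j)
          (hg0 j) (hgc j) (fun t r r' x => p4 t j r r' x) (dirs_norm z.2.2) hz
          (c := 1 / ((z.2.1 : ℝ) + 1)) (M := (z.2.1 : ℝ) + 1) (hcm _)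
        exact ⟨K, k1, k2, fun t ht _ => k3 t ht⟩
      · refine ⟨fun _ => ∅, fun _ => isClosed_empty, fun i t => ?_, fun t _ h => absurd h hz⟩
        have : {r : I | update t j r ∈ (∅ : Set (ℕ → I))} = ∅ := by
          ext r; simp
        rw [this]
        exact Set.finite_empty
    choose K k1 k2 k3 using hth
    have hne : Nonempty (Fin (Module.finrank ℝ E)) := ⟨⟨0, by omega⟩⟩
    obtain ⟨φ, hφ⟩ := exists_surjective_nat ((ℕ × ℕ × (Fin (Module.finrank ℝ E) × Bool)) × ℕ)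
    · refine ⟨fun j i => K j (φ i).1 (φ i).2, fun j i => k1 _ _ _, fun j i t => k2 _ _ _ _,
        fun t ht => ?_⟩
      refine good_of_lines (hp2 t) hd hE W g hsep fun j n m i hn => ?_
      refine k3 j (n, m, i) t (fun l => ?_) hn
      obtain ⟨a, ha⟩ := hφ ((n, m, i), l)
      have h1 : t ∉ K j (φ a).1 (φ a).2 := ht j a
      rw [ha] at h1
      exact h1
  · -- almost every parameter
    have h1 : ∀ (j n m : ℕ) (i : Fin (Module.finrank ℝ E) × Bool),
        ∀ᵐ t ∂(Measure.infinitePi (fun _ : ℕ => (volume : Measure I))), 1 ≤ n →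
        μH[((2 * d - 2 : ℕ) : ℝ)]
        (Lines (pert f g t) (g j) (dirs E i) n (1 / ((m : ℝ) + 1)) ((m : ℝ) + 1)) = 0 := by
      intro j n m i
      by_cases hn : 1 ≤ n
      · have := ae_Lines Pool.Agent.Y306.IV.prove_closed
          Pool.Agent.Y502.IV.prove_disj Pool.Agent.Y165.IV.fub hE (F := pert f g) (g := g j)
          (j := j) p2 p3 hpd (hgd j) (hg0 j) (hgc j) (fun t r r' x => p4 t j r r' x)
          (dirs_norm i) hn (c := 1 / ((m : ℝ) + 1)) (M := (m : ℝ) + 1) (hcm _)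
        filter_upwards [this] with t ht _
        exact ht
      · exact Eventually.of_forall fun t h => absurd h hn
    have h2 := ae_all_iff.2 fun j => ae_all_iff.2 fun n => ae_all_iff.2 fun m =>
      ae_all_iff.2 fun i => h1 j n m i
    filter_upwards [h2] with t ht
    exact good_of_lines (hp2 t) hd hE W g hsep fun j n m i hn => ht j n m i hn
  · -- residual
    have h1 : ∀ (j n m : ℕ) (i : Fin (Module.finrank ℝ E) × Bool),
        ∀ᶠ t in residual (ℕ → I), 1 ≤ n →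
        μH[((2 * d - 2 : ℕ) : ℝ)]
        (Lines (pert f g t) (g j) (dirs E i) n (1 / ((m : ℝ) + 1)) ((m : ℝ) + 1)) = 0 := by
      intro j n m i
      by_cases hn : 1 ≤ n
      · have := residual_Lines Pool.Agent.Y306.IV.prove_closed
          Pool.Agent.Y502.IV.prove_disj Pool.Agent.Y891.IV.prove_baire hE (F := pert f g)
          (g := g j) (j := j) p2 p3 hpd (hgd j) (hg0 j) (hgc j) (fun t r r' x => p4 t j r r' x)
          (dirs_norm i) hn (c := 1 / ((m : ℝ) + 1)) (M := (m : ℝ) + 1) (hcm _)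
        filter_upwards [this] with t ht _
        exact ht
      · exact Eventually.of_forall fun t h => absurd h hn
    have h2 : ∀ᶠ t in residual (ℕ → I), ∀ (j n m : ℕ) (i : Fin (Module.finrank ℝ E) × Bool),
        1 ≤ n → μH[((2 * d - 2 : ℕ) : ℝ)]
        (Lines (pert f g t) (g j) (dirs E i) n (1 / ((m : ℝ) + 1)) ((m : ℝ) + 1)) = 0 := by
      rw [eventually_countable_forall]
      intro j
      rw [eventually_countable_forall]
      intro n
      rw [eventually_countable_forall]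
      intro m
      rw [eventually_countable_forall]
      intro i
      exact h1 j n m i
    filter_upwards [h2] with t ht
    exact good_of_lines (hp2 t) hd hE W g hsep fun j n m i hn => ht j n m i hn

end meas

end Pool.Agent.Y322.IV
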