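import Pool.Agent.Y322.IV.Def
import Pool.Agent.Y322.IV.Lip
import Pool.Agent.Y322.IV.Stm2

/-!
# Null sets under the steps of the billiard, and the perpendicular points
-/

set_option autoImplicit false

open Set MeasureTheory Function Topology
open scoped NNReal ENNReal

namespace Pool.Agent.Y322.IV

variable {E : Type} [NormedAddCommGroup E] [InnerProductSpace ℝ E] [FiniteDimensional ℝ E]

theorem gradient_eq_sum (b : OrthonormalBasis (Fin (Module.finrank ℝ E)) ℝ E) (h : E → ℝ) (x : E) :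
    gradient h x = ∑ i, (fderiv ℝ h x (b i)) • b i := by
  conv_lhs => rw [← b.sum_repr' (gradient h x)]
  refine Finset.sum_congr rfl fun i _ => ?_
  rw [fderiv_eq_inner]

theorem contDiff_gradient {h : E → ℝ} (hh : ContDiff ℝ 2 h) : ContDiff ℝ 1 (gradient h) := by
  have h1 : gradient h = fun x => ∑ i, (fderiv ℝ h x (stdOrthonormalBasis ℝ E i)) •
      stdOrthonormalBasis ℝ E i := by
    funext x
    exact gradient_eq_sum _ h x
  rw [h1]
  have h2 : ContDiff ℝ 1 (fderiv ℝ h) := hh.fderiv_right (by norm_num)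
  refine ContDiff.sum fun i _ => ?_
  exact (h2.clm_apply contDiff_const).smul contDiff_const

/-- Moving along lines. -/
def Graph (h : E → ℝ) (A : Set (E × E)) : Set (E × E) :=
  {z : E × E | ∃ (x v : E) (τ : ℝ), (x, v) ∈ A ∧ h (x + τ • v) = 0 ∧
      inner ℝ v (gradient h (x + τ • v)) ≠ 0 ∧ z = (x + τ • v, v)}

/-- Reflection at the boundary. -/
def Refl (h : E → ℝ) (A : Set (E × E)) : Set (E × E) :=
  (fun z : E × E => (z.1, z.2 - (2 * inner ℝ z.2 (gradient h z.1) /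
      ‖gradient h z.1‖ ^ 2) • gradient h z.1)) '' (A ∩ {z | gradient h z.1 ≠ 0})

/-- Change of orientation. -/
def Rev (A : Set (E × E)) : Set (E × E) :=
  (fun z : E × E => (z.1, -z.2)) '' (A ∩ univ)

section meas
variable [MeasurableSpace E] [BorelSpace E]

theorem null_Graph {h : E → ℝ} (hh : ContDiff ℝ 2 h) {s : ℝ} (hs : 0 ≤ s) (A : Set (E × E))
    (hA : μH[s] A = 0) : μH[s] (Graph h A) = 0 :=
  null_graph (hh.of_le (by norm_num)) hs A hA

theorem null_Refl {h : E → ℝ} (hh : ContDiff ℝ 2 h) {s : ℝ} (hs : 0 ≤ s) (A : Set (E × E))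
    (hA : μH[s] A = 0) : μH[s] (Refl h A) = 0 := by
  refine null_c1 hs _ _ (fun z hz => ?_) A hA
  have hg := contDiff_gradient hh
  have h1 : ContDiffAt ℝ 1 (fun z : E × E => gradient h z.1) z :=
    (hg.comp contDiff_fst).contDiffAt
  have h2 : ContDiffAt ℝ 1 (fun z : E × E => 2 * inner ℝ z.2 (gradient h z.1) /
      ‖gradient h z.1‖ ^ 2) z := by
    refine ContDiffAt.div ?_ ?_ ?_
    · exact contDiffAt_const.mul (contDiffAt_snd.inner ℝ h1)
    · exact h1.norm_sq ℝ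
    · have : gradient h z.1 ≠ 0 := hz
      positivity
  exact contDiffAt_fst.prodMk (contDiffAt_snd.sub (h2.smul h1))

theorem null_Rev {s : ℝ} (hs : 0 ≤ s) (A : Set (E × E))
    (hA : μH[s] A = 0) : μH[s] (Rev A) = 0 :=
  null_c1 hs _ _ (fun z _ => by fun_prop) A hA

end meas

/-- `n` backward steps. -/
def Back (h : E → ℝ) (A : Set (E × E)) : ℕ → Set (E × E)
  | 0 => A
  | n + 1 => Rev (Graph h (Rev (Refl h (Back h A n))))

/-- `n` forward steps. -/
def Forw (h : E → ℝ) (A : Set (E × E)) : ℕ → Set (E × E)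
  | 0 => A
  | n + 1 => Refl h (Graph h (Forw h A n))

section meas
variable [MeasurableSpace E] [BorelSpace E]

theorem null_Back {h : E → ℝ} (hh : ContDiff ℝ 2 h) {s : ℝ} (hs : 0 ≤ s) (A : Set (E × E))
    (hA : μH[s] A = 0) (n : ℕ) : μH[s] (Back h A n) = 0 := by
  induction n with
  | zero => exact hA
  | succ n ih => exact null_Rev hs _ (null_Graph hh hs _ (null_Rev hs _ (null_Refl hh hs _ ih)))

theorem null_Forw {h : E → ℝ} (hh : ContDiff ℝ 2 h) {s : ℝ} (hs : 0 ≤ s) (A : Set (E × E))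
    (hA : μH[s] A = 0) (n : ℕ) : μH[s] (Forw h A n) = 0 := by
  induction n with
  | zero => exact hA
  | succ n ih => exact null_Refl hh hs _ (null_Graph hh hs _ ih)

end meas

/-! ### Elementary facts on trajectories -/

theorem Traj.grad_ne {h : E → ℝ} {n : ℕ} {p u : ℕ → E} (H : Traj h n p u) {k : ℕ} (hk : k ≤ n) :
    gradient h (p k) ≠ 0 := by
  intro h0
  have := (H.1 k hk).2.2
  rw [h0, inner_zero_right] at this
  exact lt_irrefl _ this

theorem Traj.incoming {h : E → ℝ} {n : ℕ} {p u : ℕ → E} (H : Traj h n p u) {k : ℕ} (hk : k < n) :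
    inner ℝ (u k) (gradient h (p (k + 1))) = -inner ℝ (u (k + 1)) (gradient h (p (k + 1))) := by
  have hg := H.grad_ne (k := k + 1) hk
  have h1 := (H.2 k hk).2
  have hn : ‖gradient h (p (k + 1))‖ ^ 2 ≠ 0 := by positivity
  rw [h1, inner_sub_left, real_inner_smul_left, real_inner_self_eq_norm_sq]
  field_simp
  ring

theorem Traj.incoming_pos {h : E → ℝ} {n : ℕ} {p u : ℕ → E} (H : Traj h n p u) {k : ℕ}
    (hk : k < n) : 0 < inner ℝ (u k) (gradient h (p (k + 1))) := by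
  rw [H.incoming hk]
  have := (H.1 (k + 1) hk).2.2
  linarith

theorem Traj.mono {h : E → ℝ} {n m : ℕ} {p u : ℕ → E} (H : Traj h n p u) (hm : m ≤ n) :
    Traj h m p u :=
  ⟨fun k hk => H.1 k (hk.trans hm), fun k hk => H.2 k (hk.trans_le hm)⟩

theorem Traj.shift {h : E → ℝ} {n m : ℕ} {p u : ℕ → E} (H : Traj h (n + m) p u) :
    Traj h n (fun k => p (k + m)) (fun k => u (k + m)) := by
  refine ⟨fun k hk => H.1 (k + m) (by omega), fun k hk => ?_⟩
  have := H.2 (k + m) (by omega)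
  have e : k + 1 + m = k + m + 1 := by omega
  simp only [e]
  exact this

/-- One forward step. -/
theorem Traj.mem_forw_step {h : E → ℝ} {n : ℕ} {p u : ℕ → E} (H : Traj h n p u) {k : ℕ}
    (hk : k < n) {A : Set (E × E)} (hA : (p k, u k) ∈ A) :
    (p (k + 1), u k) ∈ Graph h A ∧ (p (k + 1), u (k + 1)) ∈ Refl h (Graph h A) := by
  have h2 := H.2 k hk
  obtain ⟨⟨t, ht, hpt, _⟩, hu⟩ := h2
  have hG : (p (k + 1), u k) ∈ Graph h A := by
    refine ⟨p k, u k, t, hA, ?_, ?_, ?_⟩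
    · rw [← hpt]; exact (H.1 (k + 1) hk).1
    · rw [← hpt]; exact (H.incoming_pos hk).ne'
    · rw [← hpt]
  refine ⟨hG, ⟨(p (k + 1), u k), ⟨hG, H.grad_ne hk⟩, ?_⟩⟩
  simp only [Prod.mk.injEq, true_and]
  exact hu.symm

theorem Traj.mem_forw {h : E → ℝ} {n : ℕ} {p u : ℕ → E} (H : Traj h n p u) {A : Set (E × E)}
    {i k : ℕ} (hik : i + k ≤ n) (hA : (p i, u i) ∈ A) : (p (i + k), u (i + k)) ∈ Forw h A k := by
  induction k with
  | zero => exact hA
  | succ k ih => exact (H.mem_forw_step (k := i + k) (by omega) (ih (by omega))).2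

/-- One backward step. -/
theorem Traj.mem_back_step {h : E → ℝ} {n : ℕ} {p u : ℕ → E} (H : Traj h n p u) {k : ℕ}
    (hk : k < n) {A : Set (E × E)} (hA : (p (k + 1), u (k + 1)) ∈ A) :
    (p k, u k) ∈ Rev (Graph h (Rev (Refl h A))) := by
  have h2 := H.2 k hk
  obtain ⟨⟨t, ht, hpt, _⟩, hu⟩ := h2
  have hg := H.grad_ne (k := k + 1) hk
  have hn : ‖gradient h (p (k + 1))‖ ^ 2 ≠ 0 := by positivity
  have hR : (p (k + 1), u k) ∈ Refl h A := by
    refine ⟨(p (k + 1), u (k + 1)), ⟨hA, hg⟩, ?_⟩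
    simp only [Prod.mk.injEq, true_and]
    have hin := H.incoming hk
    have h3 : inner ℝ (u (k + 1)) (gradient h (p (k + 1))) =
        -inner ℝ (u k) (gradient h (p (k + 1))) := by linarith
    rw [h3]
    conv_lhs => rw [hu]
    module
  have hN : (p (k + 1), -u k) ∈ Rev (Refl h A) := ⟨(p (k + 1), u k), ⟨hR, mem_univ _⟩, rfl⟩
  have hpk : p (k + 1) + t • (-u k) = p k := by
    rw [hpt]; module
  have hG : (p k, -u k) ∈ Graph h (Rev (Refl h A)) := by
    refine ⟨p (k + 1), -u k, t, hN, ?_, ?_, ?_⟩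
    · rw [hpk]; exact (H.1 k hk.le).1
    · rw [hpk, inner_neg_left]
      have := (H.1 k hk.le).2.2
      exact (by linarith : 0 < -inner ℝ (u k) (gradient h (p k))).ne'
    · rw [hpk]
  exact ⟨(p k, -u k), ⟨hG, mem_univ _⟩, by simp⟩

theorem Traj.mem_back {h : E → ℝ} {n : ℕ} {p u : ℕ → E} (H : Traj h n p u) {A : Set (E × E)}
    {k : ℕ} : ∀ i, k ≤ n → i ≤ k → (p k, u k) ∈ A → (p (k - i), u (k - i)) ∈ Back h A i := by
  intro i
  induction i with
  | zero => intro _ _ hA; exact hA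
  | succ i ih =>
    intro hk hi hA
    have h1 := ih hk (by omega) hA
    have e : k - i = (k - (i + 1)) + 1 := by omega
    rw [e] at h1
    exact H.mem_back_step (by omega) h1

/-- The perpendicular phase points. -/
def Normal (h : E → ℝ) : Set (E × E) :=
  {z | h z.1 = 0 ∧ gradient h z.1 ≠ 0 ∧ z.2 = -(‖gradient h z.1‖⁻¹ • gradient h z.1)}

section meas
variable [MeasurableSpace E] [BorelSpace E]

theorem null_of_dim {F : Type*} [NormedAddCommGroup F] [NormedSpace ℝ F] [FiniteDimensional ℝ F]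
    [MeasurableSpace F] [BorelSpace F] {s : ℝ} (hs : (Module.finrank ℝ F : ℝ) < s) :
    μH[s] (univ : Set F) = 0 := by
  have h0 : 0 ≤ s := (Nat.cast_nonneg _).trans hs.le
  lift s to ℝ≥0 using h0
  refine hausdorffMeasure_of_dimH_lt ?_
  rw [Real.dimH_univ_eq_finrank]
  have h1 : ((Module.finrank ℝ F : ℕ) : ℝ≥0) < s := by exact_mod_cast hs
  exact_mod_cast h1

/-- The regular zero set of `h` is null in dimension `2d - 2`. -/
theorem null_zero {h : E → ℝ} (hh : ContDiff ℝ 2 h) {d : ℕ} (hd : 2 ≤ d)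
    (hE : Module.finrank ℝ E = d) :
    μH[((2 * d - 2 : ℕ) : ℝ)] {x : E | h x = 0 ∧ gradient h x ≠ 0} = 0 := by
  have hs : (0 : ℝ) ≤ ((2 * d - 2 : ℕ) : ℝ) := Nat.cast_nonneg _
  set b := stdOrthonormalBasis ℝ E with hb
  have hcov : {x : E | h x = 0 ∧ gradient h x ≠ 0} ⊆
      ⋃ i, Prod.fst '' (Graph h ((fun y : (ℝ ∙ (b i))ᗮ => ((y : E), b i)) '' (univ ∩ univ)) ∩
        univ) := by
    rintro x ⟨hx, hgx⟩
    have hex : ∃ i, inner ℝ (b i) (gradient h x) ≠ 0 := by
      by_contra hcon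
      push Not at hcon
      apply hgx
      rw [← b.sum_repr' (gradient h x)]
      exact Finset.sum_eq_zero fun i _ => by rw [hcon i, zero_smul]
    obtain ⟨i, hi⟩ := hex
    refine mem_iUnion.2 ⟨i, (x, b i), ⟨?_, mem_univ _⟩, rfl⟩
    have hbi : ‖b i‖ = 1 := b.norm_eq_one i
    set a : ℝ := inner ℝ (b i) x with ha
    have hy : x - a • b i ∈ (ℝ ∙ (b i))ᗮ := by
      rw [Submodule.mem_orthogonal_singleton_iff_inner_right, inner_sub_right, inner_smul_right,
        real_inner_self_eq_norm_sq, hbi]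
      simp [ha]
    have e : x - a • b i + a • b i = x := by abel
    refine ⟨x - a • b i, b i, a, ⟨⟨x - a • b i, hy⟩, ⟨mem_univ _, mem_univ _⟩, rfl⟩, ?_, ?_, ?_⟩
    · rw [e]; exact hx
    · rw [e]; exact hi
    · rw [e]
  refine measure_mono_null hcov (measure_iUnion_null fun i => ?_)
  refine null_c1 hs _ univ (fun z _ => contDiffAt_fst) _ (null_Graph hh hs _ ?_)
  refine null_c1 hs _ univ (fun z _ => ?_) _ ?_
  · have : ContDiff ℝ 1 (fun y : (ℝ ∙ (b i))ᗮ => ((y : E), b i)) :=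
      ((ℝ ∙ (b i))ᗮ.subtypeL.contDiff).prodMk contDiff_const
    exact this.contDiffAt
  · apply null_of_dim
    have hbi : b i ≠ 0 := by
      have : ‖b i‖ = 1 := b.norm_eq_one i
      intro h0
      rw [h0, norm_zero] at this
      exact zero_ne_one this
    have hfin : Module.finrank ℝ (ℝ ∙ (b i))ᗮ + 1 = d := by
      have h1 := Submodule.finrank_add_finrank_orthogonal (K := (ℝ ∙ (b i)))
      rw [finrank_span_singleton hbi] at h1
      omega
    have : Module.finrank ℝ (ℝ ∙ (b i))ᗮ < 2 * d - 2 := by omega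
    exact_mod_cast this

theorem null_Normal {h : E → ℝ} (hh : ContDiff ℝ 2 h) {d : ℕ} (hd : 2 ≤ d)
    (hE : Module.finrank ℝ E = d) : μH[((2 * d - 2 : ℕ) : ℝ)] (Normal h) = 0 := by
  have hs : (0 : ℝ) ≤ ((2 * d - 2 : ℕ) : ℝ) := Nat.cast_nonneg _
  have h1 := null_c1 hs (fun x : E => (x, -(‖gradient h x‖⁻¹ • gradient h x)))
    {x | gradient h x ≠ 0} (fun x hx => ?_) _ (null_zero hh hd hE)
  · refine measure_mono_null ?_ h1
    rintro ⟨x, v⟩ ⟨hx, hg, hv⟩
    refine ⟨x, ⟨⟨hx, hg⟩, hg⟩, ?_⟩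
    simp only at hv
    rw [hv]
  · have hg := (contDiff_gradient hh).contDiffAt (x := x)
    have hgx : gradient h x ≠ 0 := hx
    exact contDiffAt_id.prodMk ((((hg.norm ℝ hgx).inv (norm_ne_zero_iff.2 hgx)).smul hg).neg)

/-- The phase points whose trajectory comes back to its first bounce point along the same line. -/
theorem null_retrace (HR : S_RETR) {h : E → ℝ} (hh : ContDiff ℝ 2 h) {d : ℕ} (hd : 2 ≤ d)
    (hE : Module.finrank ℝ E = d) : μH[((2 * d - 2 : ℕ) : ℝ)]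
      {x : E × E | ∃ (n : ℕ) (p u : ℕ → E), 1 ≤ n ∧ Traj h n p u ∧ p 0 = x.1 ∧ u 0 = x.2 ∧
        p n = p 0 ∧ u (n - 1) = -u 0} = 0 := by
  have hs : (0 : ℝ) ≤ ((2 * d - 2 : ℕ) : ℝ) := Nat.cast_nonneg _
  have hcov : {x : E × E | ∃ (n : ℕ) (p u : ℕ → E), 1 ≤ n ∧ Traj h n p u ∧ p 0 = x.1 ∧
      u 0 = x.2 ∧ p n = p 0 ∧ u (n - 1) = -u 0} ⊆
      ⋃ k : ℕ, Rev (Graph h (Forw h (Normal h) k)) := by
    rintro ⟨x, v⟩ ⟨n, p, u, hn, H, hp, hu, hret, hneg⟩
    simp only at hp hu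
    obtain ⟨r, hr1, hr2, hr3⟩ := HR E h n p u hn H hret hneg
    have hN : (p r, u r) ∈ Normal h := ⟨(H.1 r (by omega)).1, H.grad_ne (by omega), hr3⟩
    have h1 := H.mem_forw (i := r) (k := r - 1) (by omega) hN
    have e : r + (r - 1) = n - 1 := by omega
    rw [e] at h1
    have h2 := (H.mem_forw_step (k := n - 1) (by omega) h1).1
    have e2 : n - 1 + 1 = n := by omega
    rw [e2, hret, hneg] at h2
    refine mem_iUnion.2 ⟨r - 1, ⟨_, ⟨h2, mem_univ _⟩, ?_⟩⟩
    simp [hp, hu]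
  refine measure_mono_null hcov (measure_iUnion_null fun k => ?_)
  exact null_Rev hs _ (null_Graph hh hs _ (null_Forw hh hs _ (null_Normal hh hd hE) k))

end meas

end Pool.Agent.Y322.IV
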