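import Pool.Agent.Y322.IV.Def

set_option autoImplicit false

open Set MeasureTheory Function
open scoped unitInterval ContDiff

namespace Pool.Agent.Y322.IV

/-- IV-BAIRE: a closed set which meets every line in the direction of the `j`-th parameter in at
most one point has null slices for all parameters in a residual set. -/
def S_BAIRE : Prop :=
  ∀ (X : Type) [MetricSpace X] [ProperSpace X] [MeasurableSpace X] [BorelSpace X]
    (ν : Measure X) [IsLocallyFiniteMeasure ν] (j : ℕ)
    (C : Set ((ℕ → I) × X)), IsClosed C →
    (∀ (t : ℕ → I) (r r' : I) (x : X), (update t j r, x) ∈ C → (update t j r', x) ∈ C → r = r') →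
    {t : ℕ → I | ν {x | (t, x) ∈ C} = 0} ∈ residual (ℕ → I)

end Pool.Agent.Y322.IV
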