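import Pool.Agent.Y322.IV.Cover
import Pool.Agent.Y322.IV.Stm
import Pool.Agent.Y322.IV.Stm3

/-!
# The lines with loops are null for almost every parameter
-/

set_option autoImplicit false

open Set MeasureTheory Function Topology Filter
open scoped NNReal ENNReal unitInterval ContDiff

namespace Pool.Agent.Y322.IV

variable {E : Type} [NormedAddCommGroup E] [InnerProductSpace ℝ E] [FiniteDimensional ℝ E]

theorem finrank_lines {d : ℕ} (hE : Module.finrank ℝ E = d) {e : E}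
    (he : ‖e‖ = 1) : Module.finrank ℝ ((ℝ ∙ e)ᗮ × (ℝ ∙ e)ᗮ) = 2 * d - 2 := by
  have h0 : e ≠ 0 := by
    intro h0
    rw [h0, norm_zero] at he
    exact zero_ne_one he
  have h1 := Submodule.finrank_add_finrank_orthogonal (K := (ℝ ∙ e))
  rw [finrank_span_singleton h0, hE] at h1
  rw [Module.finrank_prod]
  omega

section meas
variable [MeasurableSpace E] [BorelSpace E]

theorem haar_lines {d : ℕ} (hE : Module.finrank ℝ E = d) {e : E} (he : ‖e‖ = 1) :
    Measure.IsAddHaarMeasure (G := (ℝ ∙ e)ᗮ × (ℝ ∙ e)ᗮ)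
      (μH[((2 * d - 2 : ℕ) : ℝ)] : Measure ((ℝ ∙ e)ᗮ × (ℝ ∙ e)ᗮ)) := by
  rw [← finrank_lines hE he]
  exact isAddHaarMeasure_hausdorffMeasure

/-- Measure version. -/
theorem ae_Lines (HC : S_CLOSED) (HD : S_DISJ) (HF : S_FUB) {d : ℕ}
    (hE : Module.finrank ℝ E = d) {F : (ℕ → I) → E → ℝ} {g : E → ℝ} {j : ℕ}
    (hF1 : Continuous fun z : (ℕ → I) × E => F z.1 z.2)
    (hF2 : Continuous fun z : (ℕ → I) × E => gradient (F z.1) z.2)
    (hF3 : ∀ t, Differentiable ℝ (F t)) (hg : Differentiable ℝ g) (hg0 : ∀ x, 0 ≤ g x)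
    (hgc : Convex ℝ {x | 0 < g x})
    (hF4 : ∀ (t : ℕ → I) (r r' : I) (x : E),
      F (update t j r) x = F (update t j r') x + ((r : ℝ) - (r' : ℝ)) * g x)
    {e : E} (he : ‖e‖ = 1) {n : ℕ} (hn : 1 ≤ n) {c M : ℝ} (hc : 0 < c) :
    ∀ᵐ t ∂(Measure.infinitePi (fun _ : ℕ => (volume : Measure I))),
      μH[((2 * d - 2 : ℕ) : ℝ)] (Lines (F t) g e n c M) = 0 := by
  have hH := haar_lines hE he
  have hcl := HC E (ℕ → I) F (fun t => gradient (F t)) g hF1 hF2 hg.continuous e n c M hc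
  have hms := hcl.measurableSet
  have key : ∀ t, {x | (t, x) ∈ LoopSet F (fun t => gradient (F t)) g e n c M} =
      Lines (F t) g e n c M := fun t => rfl
  have hfub := HF ((ℝ ∙ e)ᗮ × (ℝ ∙ e)ᗮ) μH[((2 * d - 2 : ℕ) : ℝ)] j
    (LoopSet F (fun t => gradient (F t)) g e n c M) hms
  simp only [key] at hfub
  apply hfub
  rintro t r r' ⟨y, w⟩ ⟨a, p, u, τ, hl⟩ ⟨a', p', u', τ', hl'⟩
  have := HD E (F (update t j r)) (F (update t j r')) g ((r' : ℝ) - (r : ℝ)) (hF3 _) (hF3 _) hg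
    hg0 hgc (fun x => hF4 t r' r x) e (w : E) (y : E) n c M M a a' p u p' u' τ τ' hn hc
    (add_ne_zero_of_mem he w) hl hl'
  exact Subtype.ext (by linarith)

/-- Category version. -/
theorem residual_Lines (HC : S_CLOSED) (HD : S_DISJ) (HB : S_BAIRE) {d : ℕ}
    (hE : Module.finrank ℝ E = d) {F : (ℕ → I) → E → ℝ} {g : E → ℝ} {j : ℕ}
    (hF1 : Continuous fun z : (ℕ → I) × E => F z.1 z.2)
    (hF2 : Continuous fun z : (ℕ → I) × E => gradient (F z.1) z.2)
    (hF3 : ∀ t, Differentiable ℝ (F t)) (hg : Differentiable ℝ g) (hg0 : ∀ x, 0 ≤ g x)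
    (hgc : Convex ℝ {x | 0 < g x})
    (hF4 : ∀ (t : ℕ → I) (r r' : I) (x : E),
      F (update t j r) x = F (update t j r') x + ((r : ℝ) - (r' : ℝ)) * g x)
    {e : E} (he : ‖e‖ = 1) {n : ℕ} (hn : 1 ≤ n) {c M : ℝ} (hc : 0 < c) :
    ∀ᶠ t in residual (ℕ → I), μH[((2 * d - 2 : ℕ) : ℝ)] (Lines (F t) g e n c M) = 0 := by
  have hH := haar_lines hE he
  have hcl := HC E (ℕ → I) F (fun t => gradient (F t)) g hF1 hF2 hg.continuous e n c M hc
  have key : ∀ t, {x | (t, x) ∈ LoopSet F (fun t => gradient (F t)) g e n c M} =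
      Lines (F t) g e n c M := fun t => rfl
  have hfub := HB ((ℝ ∙ e)ᗮ × (ℝ ∙ e)ᗮ) μH[((2 * d - 2 : ℕ) : ℝ)] j
    (LoopSet F (fun t => gradient (F t)) g e n c M) hcl
  simp only [key] at hfub
  apply hfub
  rintro t r r' ⟨y, w⟩ ⟨a, p, u, τ, hl⟩ ⟨a', p', u', τ', hl'⟩
  have := HD E (F (update t j r)) (F (update t j r')) g ((r' : ℝ) - (r : ℝ)) (hF3 _) (hF3 _) hg
    hg0 hgc (fun x => hF4 t r' r x) e (w : E) (y : E) n c M M a a' p u p' u' τ τ' hn hc
    (add_ne_zero_of_mem he w) hl hl'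
  exact Subtype.ext (by linarith)

omit [MeasurableSpace E] [BorelSpace E] in
theorem gradient_add_smul {h g : E → ℝ} (hh : Differentiable ℝ h) (hg : Differentiable ℝ g)
    (r : ℝ) (x : E) :
    gradient (fun x => h x + r * g x) x = gradient h x + r • gradient g x := by
  refine ext_inner_left ℝ fun v => ?_
  rw [inner_add_right, inner_smul_right, ← fderiv_eq_inner, ← fderiv_eq_inner, ← fderiv_eq_inner]
  have : HasFDerivAt (fun x => h x + r * g x) (fderiv ℝ h x + r • fderiv ℝ g x) x :=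
    (hh x).hasFDerivAt.add ((hg x).hasFDerivAt.const_mul r)
  rw [this.fderiv]
  simp

/-- One-parameter version: all but countably many heights. -/
theorem countable_Lines (HC : S_CLOSED) (HD : S_DISJ) {d : ℕ}
    (hE : Module.finrank ℝ E = d) {h g : E → ℝ} (hh : ContDiff ℝ 2 h) (hg : ContDiff ℝ 2 g)
    (hg0 : ∀ x, 0 ≤ g x) (hgc : Convex ℝ {x | 0 < g x})
    {e : E} (he : ‖e‖ = 1) {n : ℕ} (hn : 1 ≤ n) {c M : ℝ} (hc : 0 < c) :
    {r : ℝ | 0 < μH[((2 * d - 2 : ℕ) : ℝ)]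
      (Lines (fun x => h x + r * g x) g e n c M)}.Countable := by
  have hH := haar_lines hE he
  have hhd : Differentiable ℝ h := hh.differentiable (by norm_num)
  have hgd : Differentiable ℝ g := hg.differentiable (by norm_num)
  have hd (r : ℝ) : Differentiable ℝ (fun x => h x + r * g x) := hhd.add (hgd.const_mul r)
  have hgh := (contDiff_gradient hh).continuous
  have hgg := (contDiff_gradient hg).continuous
  have hcl := HC E ℝ (fun r x => h x + r * g x) (fun r => gradient (fun x => h x + r * g x)) g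
    (by
      have h1 := hhd.continuous
      have h2 := hgd.continuous
      fun_prop)
    (by
      have : (fun z : ℝ × E => gradient (fun x => h x + z.1 * g x) z.2) =
          fun z : ℝ × E => gradient h z.2 + z.1 • gradient g z.2 := by
        funext z
        exact gradient_add_smul hhd hgd _ _
      rw [this]
      fun_prop) hgd.continuous e n c M hc
  refine Measure.countable_meas_pos_of_disjoint_iUnion (fun r => ?_) ?_
  · have h1 : Continuous fun x : (ℝ ∙ e)ᗮ × (ℝ ∙ e)ᗮ => (r, x) := by fun_prop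
    exact (hcl.preimage h1).measurableSet
  · intro r r' hrr'
    rw [Function.onFun, Set.disjoint_left]
    rintro ⟨y, w⟩ ⟨a, p, u, τ, hl⟩ ⟨a', p', u', τ', hl'⟩
    have := HD E (fun x => h x + r * g x) (fun x => h x + r' * g x) g (r' - r) (hd _) (hd _) hgd
      hg0 hgc (fun x => by ring) e (w : E) (y : E) n c M M a a' p u p' u' τ τ' hn hc
      (add_ne_zero_of_mem he w) hl hl'
    exact hrr' (by linarith)

/-- The local theorem. -/
theorem countable_LocalReturn (HC : S_CLOSED) (HD : S_DISJ) (HR : S_RETR) {d : ℕ} (hd : 2 ≤ d)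
    (hE : Module.finrank ℝ E = d) {h g : E → ℝ} (hh : ContDiff ℝ 2 h) (hg : ContDiff ℝ 2 g)
    (hg0 : ∀ x, 0 ≤ g x) (hgc : Convex ℝ {x | 0 < g x}) :
    {r : ℝ | μH[((2 * d - 2 : ℕ) : ℝ)] (LocalReturn (fun x => h x + r * g x) g) ≠ 0}.Countable := by
  have hs : (0 : ℝ) ≤ ((2 * d - 2 : ℕ) : ℝ) := Nat.cast_nonneg _
  have hcount : (⋃ z : ℕ × ℕ × (Fin (Module.finrank ℝ E) × Bool),
      {r : ℝ | 1 ≤ z.1 ∧ 0 < μH[((2 * d - 2 : ℕ) : ℝ)] (Lines (fun x => h x + r * g x) g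
        (dirs E z.2.2) z.1 (1 / ((z.2.1 : ℝ) + 1)) ((z.2.1 : ℝ) + 1))}).Countable := by
    refine Set.countable_iUnion fun z => ?_
    by_cases hz : 1 ≤ z.1
    · exact (countable_Lines HC HD hE hh hg hg0 hgc (dirs_norm z.2.2) hz
        (c := 1 / ((z.2.1 : ℝ) + 1)) (M := (z.2.1 : ℝ) + 1) (by positivity)).mono fun r hr => hr.2
    · exact Set.countable_empty.mono fun r hr => absurd hr.1 hz
  refine hcount.mono fun r hr => ?_
  by_contra hcon
  apply hr
  have hnull : ∀ (n m : ℕ) (i : Fin (Module.finrank ℝ E) × Bool), 1 ≤ n →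
      μH[((2 * d - 2 : ℕ) : ℝ)] (Lines (fun x => h x + r * g x) g (dirs E i) n
        (1 / ((m : ℝ) + 1)) ((m : ℝ) + 1)) = 0 := by
    intro n m i hn
    by_contra h0
    exact hcon (mem_iUnion.2 ⟨(n, m, i), hn, pos_iff_ne_zero.2 h0⟩)
  have hh2 : ContDiff ℝ 2 (fun x => h x + r * g x) := hh.add (contDiff_const.mul hg)
  set H : E → ℝ := fun x => h x + r * g x with hH
  have hcov : LocalReturn H g ⊆ {x : E × E | ∃ (n : ℕ) (p u : ℕ → E), 1 ≤ n ∧ Traj H n p u ∧
      p 0 = x.1 ∧ u 0 = x.2 ∧ p n = p 0 ∧ u (n - 1) = -u 0} ∪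
      ⋃ z : ℕ × ℕ × (Fin (Module.finrank ℝ E) × Bool),
      OnLines H (dirs E z.2.2) {x | 1 ≤ z.1 ∧ x ∈ Lines H g (dirs E z.2.2) z.1
        (1 / ((z.2.1 : ℝ) + 1)) ((z.2.1 : ℝ) + 1)} := by
    rintro ⟨q, v⟩ ⟨n, p, u, hn, Ht, hp, hu, hret, hgp, hgz⟩
    simp only at hp hu
    by_cases hneg : u (n - 1) = -u 0
    · exact Or.inl ⟨n, p, u, hn, Ht, hp, hu, hret, hneg⟩
    · right
      have hu0 : u 0 ≠ 0 := by
        intro h0
        have := (Ht.1 0 (Nat.zero_le _)).2.1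
        rw [h0, norm_zero] at this
        exact zero_ne_one this
      obtain ⟨i, hi⟩ := exists_dir hu0
      obtain ⟨m, hm⟩ := loop_of_traj Ht hret hneg hgp hgz (dirs_norm i) hi
      refine mem_iUnion.2 ⟨(n, m, i), ?_⟩
      rw [← hp, ← hu]
      have e : {x | 1 ≤ n ∧ x ∈ Lines H g (dirs E i) n (1 / ((m : ℝ) + 1)) ((m : ℝ) + 1)} =
          Lines H g (dirs E i) n (1 / ((m : ℝ) + 1)) ((m : ℝ) + 1) := by
        ext x
        simp [hn]
      simp only [e]
      exact hm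
  refine measure_mono_null hcov (measure_union_null (null_retrace HR hh2 hd hE)
    (measure_iUnion_null fun z => ?_))
  refine null_OnLines hh2 hs (dirs_norm _) _ ?_
  by_cases hz : 1 ≤ z.1
  · exact measure_mono_null (fun x hx => hx.2) (hnull z.1 z.2.1 z.2.2 hz)
  · refine measure_mono_null (fun x hx => ?_) (measure_empty)
    exact absurd hx.1 hz

end meas

end Pool.Agent.Y322.IV
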