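import Pool.Agent.Y322.IV.Slices
import Pool.Agent.Y891.IV.Baire

/-!
# The exceptional parameters lie in closed sets with finite sections
-/

set_option autoImplicit false

open Set MeasureTheory Function Topology Filter Metric
open scoped NNReal ENNReal unitInterval ContDiff

namespace Pool.Agent.Y322.IV

theorem thin {X : Type} [MetricSpace X] [ProperSpace X] [MeasurableSpace X] [BorelSpace X]
    (ν : Measure X) [IsLocallyFiniteMeasure ν] (j : ℕ) (C : Set ((ℕ → I) × X)) (hC : IsClosed C)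
    (hinj : ∀ (t : ℕ → I) (r r' : I) (x : X), (update t j r, x) ∈ C →
      (update t j r', x) ∈ C → r = r') :
    ∃ K : ℕ → Set (ℕ → I), (∀ i, IsClosed (K i)) ∧
      (∀ i t, {r : I | update t j r ∈ K i}.Finite) ∧
      ∀ t, (∀ i, t ∉ K i) → ν {x | (t, x) ∈ C} = 0 := by
  rcases isEmpty_or_nonempty X with hX | ⟨⟨x₀⟩⟩
  · refine ⟨fun _ => ∅, fun _ => isClosed_empty, fun i t => ?_, fun t _ => ?_⟩
    · have : {r : I | update t j r ∈ (∅ : Set (ℕ → I))} = ∅ := by
        ext r; simp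
      rw [this]
      exact Set.finite_empty
    · rw [Set.eq_empty_of_isEmpty {x : X | (t, x) ∈ C}, measure_empty]
  have hCt : ∀ t : ℕ → I, IsClosed {x : X | (t, x) ∈ C} := fun t => hC.preimage (by fun_prop)
  refine ⟨fun i => {t | ν ({x | (t, x) ∈ C} ∩ closedBall x₀ (i : ℝ)) < ((i : ℝ≥0∞) + 1)⁻¹}ᶜ,
    fun i => ?_, fun i t => ?_, fun t ht => ?_⟩
  · exact (Pool.Agent.Y891.IV.open_lt ν C hC _ (isCompact_closedBall x₀ (i : ℝ)) _).isClosed_compl
  · have hpos : 0 < ((i : ℝ≥0∞) + 1)⁻¹ :=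
      ENNReal.inv_pos.2 (ENNReal.add_ne_top.2 ⟨ENNReal.natCast_ne_top i, ENNReal.one_ne_top⟩)
    have hfin := Measure.finite_const_le_meas_of_disjoint_iUnion ν (ι := I)
      (As := fun r : I => {x | (update t j r, x) ∈ C} ∩ closedBall x₀ (i : ℝ)) hpos
      (fun r => ((hCt _).inter isClosed_closedBall).measurableSet) (by
        intro r r' hne
        rw [Function.onFun, Set.disjoint_left]
        rintro x ⟨hx1, -⟩ ⟨hx2, -⟩
        exact hne (hinj t r r' x hx1 hx2)) (by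
        refine ne_top_of_le_ne_top (isCompact_closedBall x₀ (i : ℝ)).measure_lt_top.ne
          (measure_mono (iUnion_subset fun r => inter_subset_right)))
    refine hfin.subset fun r hr => ?_
    simp only [mem_ofPred_eq, mem_compl_iff, not_lt] at hr
    exact hr
  · have h0 : ∀ N : ℕ, ν ({x | (t, x) ∈ C} ∩ closedBall x₀ (N : ℝ)) = 0 := by
      intro N
      by_contra hne
      obtain ⟨m, hm⟩ := ENNReal.exists_inv_nat_lt hne
      set i := max N m with hi
      have h1 : ν ({x | (t, x) ∈ C} ∩ closedBall x₀ (i : ℝ)) < ((i : ℝ≥0∞) + 1)⁻¹ := by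
        have := ht i
        simp only [mem_compl_iff, not_not, mem_ofPred_eq] at this
        exact this
      have h2 : ((i : ℝ≥0∞) + 1)⁻¹ ≤ (m : ℝ≥0∞)⁻¹ := by
        refine ENNReal.inv_le_inv.2 ?_
        have : (m : ℝ≥0∞) ≤ (i : ℝ≥0∞) := by exact_mod_cast le_max_right N m
        exact this.trans le_self_add
      have h3 : ν ({x | (t, x) ∈ C} ∩ closedBall x₀ (N : ℝ)) ≤
          ν ({x | (t, x) ∈ C} ∩ closedBall x₀ (i : ℝ)) := by
        refine measure_mono (inter_subset_inter_right _ (closedBall_subset_closedBall ?_))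
        exact_mod_cast le_max_left N m
      exact absurd (hm.trans_le (h3.trans (h1.le.trans h2))) (lt_irrefl _)
    have h1 : {x | (t, x) ∈ C} = ⋃ N : ℕ, {x | (t, x) ∈ C} ∩ closedBall x₀ (N : ℝ) := by
      rw [← inter_iUnion, iUnion_closedBall_nat, inter_univ]
    rw [h1]
    exact measure_iUnion_null h0

variable {E : Type} [NormedAddCommGroup E] [InnerProductSpace ℝ E] [FiniteDimensional ℝ E]
  [MeasurableSpace E] [BorelSpace E]

/-- Thin version. -/
theorem thin_Lines (HC : S_CLOSED) (HD : S_DISJ) {d : ℕ}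
    (hE : Module.finrank ℝ E = d) {F : (ℕ → I) → E → ℝ} {g : E → ℝ} {j : ℕ}
    (hF1 : Continuous fun z : (ℕ → I) × E => F z.1 z.2)
    (hF2 : Continuous fun z : (ℕ → I) × E => gradient (F z.1) z.2)
    (hF3 : ∀ t, Differentiable ℝ (F t)) (hg : Differentiable ℝ g) (hg0 : ∀ x, 0 ≤ g x)
    (hgc : Convex ℝ {x | 0 < g x})
    (hF4 : ∀ (t : ℕ → I) (r r' : I) (x : E),
      F (update t j r) x = F (update t j r') x + ((r : ℝ) - (r' : ℝ)) * g x)
    {e : E} (he : ‖e‖ = 1) {n : ℕ} (hn : 1 ≤ n) {c M : ℝ} (hc : 0 < c) :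
    ∃ K : ℕ → Set (ℕ → I), (∀ i, IsClosed (K i)) ∧
      (∀ i t, {r : I | update t j r ∈ K i}.Finite) ∧
      ∀ t, (∀ i, t ∉ K i) → μH[((2 * d - 2 : ℕ) : ℝ)] (Lines (F t) g e n c M) = 0 := by
  have hH := haar_lines hE he
  have hcl := HC E (ℕ → I) F (fun t => gradient (F t)) g hF1 hF2 hg.continuous e n c M hc
  have key : ∀ t, {x | (t, x) ∈ LoopSet F (fun t => gradient (F t)) g e n c M} =
      Lines (F t) g e n c M := fun t => rfl
  have hthin := thin (X := (ℝ ∙ e)ᗮ × (ℝ ∙ e)ᗮ) μH[((2 * d - 2 : ℕ) : ℝ)] j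
    (LoopSet F (fun t => gradient (F t)) g e n c M) hcl
  simp only [key] at hthin
  apply hthin
  rintro t r r' ⟨y, w⟩ ⟨a, p, u, τ, hl⟩ ⟨a', p', u', τ', hl'⟩
  have := HD E (F (update t j r)) (F (update t j r')) g ((r' : ℝ) - (r : ℝ)) (hF3 _) (hF3 _) hg
    hg0 hgc (fun x => hF4 t r' r x) e (w : E) (y : E) n c M M a a' p u p' u' τ τ' hn hc
    (add_ne_zero_of_mem he w) hl hl'
  exact Subtype.ext (by linarith)

end Pool.Agent.Y322.IV
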